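import Pool.Agent.H208.Knaster.Concyclic

namespace H208.Knaster

open Filter Topology Polynomial

/-- A set with an antipodal pair and a third point. -/
theorem antipodal_fail {n m r : ℕ} (hr : n + 1 = m + r) (hm : 2 * r ≤ m + 1)
    {S : Finset (E n)} {s t : E n} (hs1 : ‖s‖ = 1) (ht1 : ‖t‖ = 1)
    (hs : s ∈ S) (hs' : -s ∈ S) (ht : t ∈ S) (h1 : t ≠ s) (h2 : t ≠ -s) :
    ¬ KnasterProperty n m S := by
  classical
  intro hK
  let W : ℕ → E n → ℝ := fun b x => if b < r then H208.Knaster.X n b x else 0
  have hW : ∀ b, Continuous (W b) := by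
    intro b
    by_cases hb : b < r
    · simp only [W, hb, if_true]
      exact (H208.Knaster.X n b).continuous
    · simp only [W, hb, if_false]
      exact continuous_const
  let Q : ℕ → E n → ℝ := fun j x => ∑ a ∈ Finset.range (j + 1), W a x * W (j - a) x
  have hQ : ∀ j, Continuous (Q j) := fun j =>
    continuous_finsetSum _ (fun a _ => (hW _).mul (hW _))
  have hWneg : ∀ b x, W b (-x) = - W b x := by
    intro b x
    by_cases hb : b < r
    · simp [W, hb]
    · simp [W, hb]
  have hQneg : ∀ j x, Q j (-x) = Q j x := by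
    intro j x
    refine Finset.sum_congr rfl (fun a _ => ?_)
    rw [hWneg, hWneg]
    ring
  have hsq : ∀ (x : E n) (k : ℕ), ((P n r x) ^ 2).coeff k = Q k x := by
    intro x k
    rw [sq, Polynomial.coeff_mul,
      Finset.Nat.sum_antidiagonal_eq_sum_range_succ
        (fun i j => (P n r x).coeff i * (P n r x).coeff j) k]
    refine Finset.sum_congr rfl (fun p _ => ?_)
    rw [P_coeff, P_coeff]
  have hN : ∀ N : ℕ, ∃ O : E n ≃ₗᵢ[ℝ] E n, ∀ u ∈ S, ∀ v ∈ S, ∀ j : Fin m,
      Q j (O u) + (1 / ((N : ℝ) + 1)) * H208.Knaster.X n (r + j) (O u) =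
        Q j (O v) + (1 / ((N : ℝ) + 1)) * H208.Knaster.X n (r + j) (O v) := by
    intro N
    obtain ⟨O, _, hO⟩ := hK
      (fun x => WithLp.toLp 2 (fun j : Fin m => Q j x +
        (1 / ((N : ℝ) + 1)) * H208.Knaster.X n (r + j) x)) (by
        apply Continuous.continuousOn
        refine (PiLp.continuous_toLp 2 _).comp ?_
        refine continuous_pi (fun j => ?_)
        have := hQ j
        fun_prop)
    refine ⟨O, fun u hu v hv j => ?_⟩
    have := hO u hu v hv
    have h2 := congrArg (fun w : EuclideanSpace ℝ (Fin m) => w j) this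
    simpa using h2
  choose O hO using hN
  -- coordinates of x vanish beyond r
  have hxz : ∀ N : ℕ, ∀ j : Fin m, H208.Knaster.X n (r + j) (O N s) = 0 := by
    intro N j
    have h3 := hO N s hs (-s) hs' j
    rw [map_neg, hQneg, map_neg] at h3
    have hpos : (0 : ℝ) < 1 / ((N : ℝ) + 1) := by positivity
    have h4 : (1 / ((N : ℝ) + 1)) * H208.Knaster.X n (r + j) (O N s) = 0 := by linarith
    exact (mul_eq_zero.1 h4).resolve_left hpos.ne'
  let Y : ℕ → E n × E n := fun N => (O N s, O N t)
  have hball : ∀ N, Y N ∈ Metric.closedBall (0 : E n × E n) 1 := by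
    intro N
    rw [mem_closedBall_zero_iff, Prod.norm_def]
    simp [Y, hs1, ht1]
  obtain ⟨⟨x, y⟩, _, φ, hφ, hlim⟩ :=
    (isCompact_closedBall (0 : E n × E n) 1).tendsto_subseq hball
  have hlx : Tendsto (fun k => O (φ k) s) atTop (𝓝 x) :=
    (continuous_fst.tendsto _).comp hlim
  have hly : Tendsto (fun k => O (φ k) t) atTop (𝓝 y) :=
    (continuous_snd.tendsto _).comp hlim
  have hzero : Tendsto (fun k => (1 / ((φ k : ℝ) + 1))) atTop (𝓝 0) :=
    tendsto_one_div_add_atTop_nhds_zero_nat.comp hφ.tendsto_atTop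
  have hnx : ‖x‖ = 1 := by
    have := hlx.norm
    have e : (fun k => ‖O (φ k) s‖) = fun _ => (1 : ℝ) := by
      funext k; simp [hs1]
    rw [e] at this
    exact (tendsto_nhds_unique this tendsto_const_nhds)
  have hny : ‖y‖ = 1 := by
    have := hly.norm
    have e : (fun k => ‖O (φ k) t‖) = fun _ => (1 : ℝ) := by
      funext k; simp [ht1]
    rw [e] at this
    exact (tendsto_nhds_unique this tendsto_const_nhds)
  have hin : inner ℝ x y = inner ℝ s t := by
    have := hlx.inner (𝕜 := ℝ) hly
    have e : (fun k => inner ℝ (O (φ k) s) (O (φ k) t)) = fun _ => inner ℝ s t := by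
      funext k
      exact (O (φ k)).inner_map_map s t
    rw [e] at this
    exact (tendsto_nhds_unique this tendsto_const_nhds)
  have hx0 : ∀ b, r ≤ b → b < n + 1 → H208.Knaster.X n b x = 0 := by
    intro b hrb hb
    have h3 : Tendsto (fun k => H208.Knaster.X n b (O (φ k) s)) atTop
        (𝓝 (H208.Knaster.X n b x)) :=
      (((H208.Knaster.X n b).continuous).tendsto _).comp hlx
    have e : (fun k => H208.Knaster.X n b (O (φ k) s)) = fun _ => (0 : ℝ) := by
      funext k
      have := hxz (φ k) ⟨b - r, by omega⟩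
      have e2 : r + (b - r) = b := by omega
      simpa [e2] using this
    rw [e] at h3
    exact (tendsto_nhds_unique h3 tendsto_const_nhds)
  have hQeq : ∀ k, Q k x = Q k y := by
    intro k
    by_cases hk : k < m
    · have h3 : Tendsto (fun i => Q k (O (φ i) s) - Q k (O (φ i) t)) atTop
          (𝓝 (Q k x - Q k y)) :=
        (((hQ k).tendsto _).comp hlx).sub (((hQ k).tendsto _).comp hly)
      have h4 : Tendsto (fun i => (1 / ((φ i : ℝ) + 1)) *
          (H208.Knaster.X n (r + k) (O (φ i) t) - H208.Knaster.X n (r + k) (O (φ i) s))) atTop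
          (𝓝 (0 * (H208.Knaster.X n (r + k) y - H208.Knaster.X n (r + k) x))) :=
        hzero.mul (((((H208.Knaster.X n (r + k)).continuous).tendsto _).comp hly).sub
          ((((H208.Knaster.X n (r + k)).continuous).tendsto _).comp hlx))
      have e : (fun i => Q k (O (φ i) s) - Q k (O (φ i) t)) =
          (fun i => (1 / ((φ i : ℝ) + 1)) *
          (H208.Knaster.X n (r + k) (O (φ i) t) - H208.Knaster.X n (r + k) (O (φ i) s))) := by
        funext i
        have := hO (φ i) s hs t ht ⟨k, hk⟩
        simp only at this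
        linarith
      rw [e] at h3
      have := tendsto_nhds_unique h3 h4
      linarith
    · have hz : ∀ z, Q k z = 0 := by
        intro z
        refine Finset.sum_eq_zero (fun a ha => ?_)
        have ha' := Finset.mem_range.1 ha
        have : ¬ a < r ∨ ¬ (k - a) < r := by omega
        rcases this with h | h
        · simp [W, h]
        · simp [W, h]
      rw [hz, hz]
  have hPsq : (P n r x) ^ 2 = (P n r y) ^ 2 := by
    ext k
    rw [hsq, hsq, hQeq]
  -- norms in coordinates
  have hnorm : ∀ z : E n, ‖z‖ ^ 2 = ∑ b ∈ Finset.range (n + 1), (H208.Knaster.X n b z) ^ 2 := by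
    intro z
    rw [EuclideanSpace.real_norm_sq_eq, Finset.sum_range]
    refine Finset.sum_congr rfl (fun i _ => ?_)
    rw [X_apply]
  have hsame : ∀ b, b < r → (H208.Knaster.X n b x) ^ 2 = (H208.Knaster.X n b y) ^ 2 := by
    intro b hb
    rcases sq_eq_sq_iff_eq_or_eq_neg.1 hPsq with h | h
    · have := congrArg (fun p => p.coeff b) h
      simp only [P_coeff, hb, if_true] at this
      rw [this]
    · have := congrArg (fun p => p.coeff b) h
      simp only [P_coeff, hb, if_true, Polynomial.coeff_neg] at this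
      rw [this, neg_sq]
  have hsplit : ∀ z : E n, ‖z‖ ^ 2 = ∑ b ∈ Finset.range r, (H208.Knaster.X n b z) ^ 2 +
      ∑ b ∈ Finset.Ico r (n + 1), (H208.Knaster.X n b z) ^ 2 := by
    intro z
    rw [hnorm z]
    rw [Finset.sum_range_add_sum_Ico _ (by omega)]
  have hytail : ∑ b ∈ Finset.Ico r (n + 1), (H208.Knaster.X n b y) ^ 2 = 0 := by
    have hxs := hsplit x
    have hys := hsplit y
    have hx2 : ∑ b ∈ Finset.Ico r (n + 1), (H208.Knaster.X n b x) ^ 2 = 0 := by
      refine Finset.sum_eq_zero (fun b hb => ?_)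
      rw [Finset.mem_Ico] at hb
      rw [hx0 b hb.1 hb.2]
      simp
    have hxy : ∑ b ∈ Finset.range r, (H208.Knaster.X n b x) ^ 2 =
        ∑ b ∈ Finset.range r, (H208.Knaster.X n b y) ^ 2 :=
      Finset.sum_congr rfl (fun b hb => hsame b (Finset.mem_range.1 hb))
    rw [hnx] at hxs
    rw [hny] at hys
    linarith
  have hy0 : ∀ b, r ≤ b → b < n + 1 → H208.Knaster.X n b y = 0 := by
    intro b hrb hb
    have h3 := (Finset.sum_eq_zero_iff_of_nonneg (fun b _ => sq_nonneg _)).1 hytail b
      (Finset.mem_Ico.2 ⟨hrb, hb⟩)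
    exact pow_eq_zero_iff (two_ne_zero) |>.1 h3
  rcases sq_eq_sq_iff_eq_or_eq_neg.1 hPsq with h | h
  · have hxy : x = y := by
      apply sub_eq_zero.1
      apply ext_X
      intro b hb
      rw [map_sub]
      by_cases hbr : b < r
      · have := congrArg (fun p => p.coeff b) h
        simp only [P_coeff, hbr, if_true] at this
        rw [this, sub_self]
      · rw [hx0 b (by omega) hb, hy0 b (by omega) hb, sub_self]
    rw [← hxy, real_inner_self_eq_norm_sq, hnx] at hin
    have : inner ℝ s t = ‖s‖ * ‖t‖ := by rw [← hin, hs1, ht1]; norm_num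
    rw [inner_eq_norm_mul_iff_real, hs1, ht1, one_smul, one_smul] at this
    exact h1 this.symm
  · have hxy : x = -y := by
      apply sub_eq_zero.1
      apply ext_X
      intro b hb
      rw [map_sub, map_neg]
      by_cases hbr : b < r
      · have := congrArg (fun p => p.coeff b) h
        simp only [P_coeff, hbr, if_true, Polynomial.coeff_neg] at this
        rw [this, sub_self]
      · rw [hx0 b (by omega) hb, hy0 b (by omega) hb, neg_zero, sub_self]
    rw [hxy, inner_neg_left, real_inner_self_eq_norm_sq, hny] at hin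
    have : inner ℝ (-s) t = ‖-s‖ * ‖t‖ := by
      rw [inner_neg_left, ← hin, norm_neg, hs1, ht1]; norm_num
    rw [inner_eq_norm_mul_iff_real, norm_neg, hs1, ht1, one_smul, one_smul] at this
    exact h2 this.symm

end H208.Knaster
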