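import Mathlib

/-! Knaster's problem: basic definitions and the limit lemma. -/

namespace H208.Knaster

open Filter Topology

/-- `R^{n+1}`, the ambient space of the sphere `S^n`. -/
abbrev E (n : ℕ) := EuclideanSpace ℝ (Fin (n + 1))

/-- A rotation of `R^{n+1}`: a linear isometry of determinant one (element of `SO(n+1)`). -/
def IsRotation {n : ℕ} (O : E n ≃ₗᵢ[ℝ] E n) : Prop :=
  LinearMap.det (O.toLinearEquiv : E n →ₗ[ℝ] E n) = 1

/-- The pair `(S, m)` has the Knaster property: for every continuous map `f` from the unit sphere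
`S^n` to `R^m` there is a rotation `O` such that `f` is constant on `O(S)`. -/
def KnasterProperty (n m : ℕ) (S : Finset (E n)) : Prop :=
  ∀ f : E n → EuclideanSpace ℝ (Fin m), ContinuousOn f (Metric.sphere 0 1) →
    ∃ O : E n ≃ₗᵢ[ℝ] E n, IsRotation O ∧ ∀ s ∈ S, ∀ t ∈ S, f (O s) = f (O t)

/-- `T` is a circuit: affinely dependent, but each proper subset is affinely independent. -/
def IsCircuit {n : ℕ} (T : Finset (E n)) : Prop :=
  ¬ AffineIndependent ℝ ((↑) : T → E n) ∧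
    ∀ T' : Finset (E n), T' ⊂ T → AffineIndependent ℝ ((↑) : T' → E n)

theorem limit_lemma {n m : ℕ} {S : Finset (E n)} (hS : ∀ s ∈ S, ‖s‖ = 1)
    (hK : KnasterProperty n m S) (Λ : Fin m → (E n →L[ℝ] ℝ)) (Q : Fin m → E n → ℝ)
    (hQ : ∀ j, Continuous (Q j)) :
    ∃ y : E n → E n,
      (∀ s ∈ S, ∀ t ∈ S, inner ℝ (y s) (y t) = inner ℝ s t) ∧
      (∀ j, ∀ s ∈ S, ∀ t ∈ S, Λ j (y s) = Λ j (y t)) ∧
      (∀ c : E n → ℝ, ∑ s ∈ S, c s = 0 → ∑ s ∈ S, c s • s = 0 →
        ∀ j, ∑ s ∈ S, c s * Q j (y s) = 0) := by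
  classical
  -- the functions f_N
  have hN : ∀ N : ℕ, ∃ O : E n ≃ₗᵢ[ℝ] E n, ∀ s ∈ S, ∀ t ∈ S, ∀ j,
      Λ j (O s) + (1 / ((N : ℝ) + 1)) * Q j (O s) =
        Λ j (O t) + (1 / ((N : ℝ) + 1)) * Q j (O t) := by
    intro N
    obtain ⟨O, _, hO⟩ := hK
      (fun x => WithLp.toLp 2 (fun j => Λ j x + (1 / ((N : ℝ) + 1)) * Q j x)) (by
        apply Continuous.continuousOn
        refine (PiLp.continuous_toLp 2 _).comp ?_
        refine continuous_pi (fun j => ?_)
        have := hQ j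
        fun_prop)
    refine ⟨O, fun s hs t ht j => ?_⟩
    have := hO s hs t ht
    have h2 := congrArg (fun v : EuclideanSpace ℝ (Fin m) => v j) this
    simpa using h2
  choose O hO using hN
  let Y : ℕ → (S → E n) := fun N s => O N s
  have hball : ∀ N, Y N ∈ Metric.closedBall (0 : S → E n) 1 := by
    intro N
    rw [mem_closedBall_zero_iff, pi_norm_le_iff_of_nonneg zero_le_one]
    intro s
    simp [Y, hS s s.2]
  obtain ⟨y0, _, φ, hφ, hlim⟩ :=
    (isCompact_closedBall (0 : S → E n) 1).tendsto_subseq hball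
  have hlim' : ∀ s : S, Tendsto (fun k => O (φ k) s) atTop (𝓝 (y0 s)) := by
    intro s
    exact ((continuous_apply s).tendsto y0).comp hlim
  have hzero : Tendsto (fun k => (1 / ((φ k : ℝ) + 1))) atTop (𝓝 0) :=
    tendsto_one_div_add_atTop_nhds_zero_nat.comp hφ.tendsto_atTop
  refine ⟨fun s => if h : s ∈ S then y0 ⟨s, h⟩ else 0, ?_, ?_, ?_⟩
  · intro s hs t ht
    simp only [hs, ht, dif_pos]
    have h1 : Tendsto (fun k => inner ℝ (O (φ k) s) (O (φ k) t)) atTop
        (𝓝 (inner ℝ (y0 ⟨s, hs⟩) (y0 ⟨t, ht⟩))) :=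
      (hlim' ⟨s, hs⟩).inner (hlim' ⟨t, ht⟩)
    have h2 : (fun k => inner ℝ (O (φ k) s) (O (φ k) t)) = fun _ => inner ℝ s t := by
      funext k
      exact (O (φ k)).inner_map_map s t
    rw [h2] at h1
    exact (tendsto_nhds_unique h1 tendsto_const_nhds)
  · intro j s hs t ht
    simp only [hs, ht, dif_pos]
    have h1 : Tendsto (fun k => Λ j (O (φ k) s) - Λ j (O (φ k) t)) atTop
        (𝓝 (Λ j (y0 ⟨s, hs⟩) - Λ j (y0 ⟨t, ht⟩))) :=
      (((Λ j).continuous.tendsto _).comp (hlim' ⟨s, hs⟩)).sub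
        (((Λ j).continuous.tendsto _).comp (hlim' ⟨t, ht⟩))
    have h2 : Tendsto (fun k => (1 / ((φ k : ℝ) + 1)) *
        (Q j (O (φ k) t) - Q j (O (φ k) s))) atTop
        (𝓝 (0 * (Q j (y0 ⟨t, ht⟩) - Q j (y0 ⟨s, hs⟩)))) :=
      hzero.mul ((((hQ j).tendsto _).comp (hlim' ⟨t, ht⟩)).sub
        (((hQ j).tendsto _).comp (hlim' ⟨s, hs⟩)))
    have h3 : (fun k => Λ j (O (φ k) s) - Λ j (O (φ k) t)) =
        (fun k => (1 / ((φ k : ℝ) + 1)) * (Q j (O (φ k) t) - Q j (O (φ k) s))) := by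
      funext k
      have := hO (φ k) s hs t ht j
      linarith
    rw [h3] at h1
    have := tendsto_nhds_unique h1 h2
    linarith
  · intro c hc0 hc1 j
    have hex : ∀ k, ∑ s ∈ S.attach, c s * Q j (O (φ k) s) = 0 := by
      intro k
      rcases S.eq_empty_or_nonempty with rfl | ⟨s0, hs0⟩
      · simp
      have hpos : (0 : ℝ) < 1 / ((φ k : ℝ) + 1) := by positivity
      have h1 : ∑ s ∈ S, c s * (Λ j (O (φ k) s) + (1 / ((φ k : ℝ) + 1)) * Q j (O (φ k) s)) = 0 := by
        have : ∀ s ∈ S, c s * (Λ j (O (φ k) s) + (1 / ((φ k : ℝ) + 1)) * Q j (O (φ k) s)) =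
            c s * (Λ j (O (φ k) s0) + (1 / ((φ k : ℝ) + 1)) * Q j (O (φ k) s0)) := by
          intro s hs
          rw [hO (φ k) s hs s0 hs0 j]
        rw [Finset.sum_congr rfl this, ← Finset.sum_mul, hc0, zero_mul]
      have h2 : ∑ s ∈ S, c s * Λ j (O (φ k) s) = 0 := by
        have : Λ j (O (φ k) (∑ s ∈ S, c s • s)) = ∑ s ∈ S, c s * Λ j (O (φ k) s) := by
          simp [map_sum]
        rw [← this, hc1]
        simp
      have h3 : (1 / ((φ k : ℝ) + 1)) * ∑ s ∈ S, c s * Q j (O (φ k) s) = 0 := by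
        rw [Finset.mul_sum]
        have : ∑ s ∈ S, c s * (Λ j (O (φ k) s) + (1 / ((φ k : ℝ) + 1)) * Q j (O (φ k) s)) =
          ∑ s ∈ S, c s * Λ j (O (φ k) s) +
            ∑ s ∈ S, (1 / ((φ k : ℝ) + 1)) * (c s * Q j (O (φ k) s)) := by
          rw [← Finset.sum_add_distrib]
          refine Finset.sum_congr rfl (fun s _ => ?_)
          ring
        rw [this, h2, zero_add] at h1
        exact h1
      have h4 := (mul_eq_zero.1 h3).resolve_left hpos.ne'
      rw [← h4]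
      exact Finset.sum_attach S (fun s => c s * Q j (O (φ k) s))
    have hl : Tendsto (fun k => ∑ s ∈ S.attach, c s * Q j (O (φ k) s)) atTop
        (𝓝 (∑ s ∈ S.attach, c s * Q j (y0 s))) := by
      refine tendsto_finsetSum _ (fun s _ => ?_)
      exact tendsto_const_nhds.mul (((hQ j).tendsto _).comp (hlim' s))
    have h5 : ∑ s ∈ S.attach, c s * Q j (y0 s) = 0 := by
      have : (fun k => ∑ s ∈ S.attach, c s * Q j (O (φ k) s)) = fun _ => 0 := by
        funext k; exact hex k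
      rw [this] at hl
      exact tendsto_nhds_unique hl tendsto_const_nhds
    rw [← Finset.sum_attach]
    rw [← h5]
    refine Finset.sum_congr rfl (fun s _ => ?_)
    simp

/-- Norm equality for linear combinations. -/
theorem lin_rel {n : ℕ} {S : Finset (E n)} {y : E n → E n}
    (hy : ∀ s ∈ S, ∀ t ∈ S, inner ℝ (y s) (y t) = inner ℝ s t) (a : E n → ℝ) :
    ∑ s ∈ S, a s • y s = 0 ↔ ∑ s ∈ S, a s • s = 0 := by
  have h : inner ℝ (∑ s ∈ S, a s • y s) (∑ s ∈ S, a s • y s) =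
      inner ℝ (∑ s ∈ S, a s • s) (∑ s ∈ S, a s • s) := by
    simp only [sum_inner, inner_sum, inner_smul_left, inner_smul_right]
    refine Finset.sum_congr rfl (fun s hs => ?_)
    congr 1
    refine Finset.sum_congr rfl (fun t ht => ?_)
    rw [hy t ht s hs]
  constructor
  · intro h0
    rw [h0, inner_self_eq_zero.2 rfl] at h
    exact inner_self_eq_zero.1 h.symm
  · intro h0
    rw [h0, inner_self_eq_zero.2 rfl] at h
    exact inner_self_eq_zero.1 h

theorem KnasterProperty.mono {n m : ℕ} {S T : Finset (E n)} (hTS : T ⊆ S)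
    (h : KnasterProperty n m S) : KnasterProperty n m T := by
  intro f hf
  obtain ⟨O, hO, h2⟩ := h f hf
  exact ⟨O, hO, fun s hs t ht => h2 s (hTS hs) t (hTS ht)⟩

end H208.Knaster
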