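import Pool.Agent.H208.Knaster.Basic

namespace H208.Knaster

open Filter Topology

/-- coordinate with natural number index (zero out of range) -/
noncomputable def X (n a : ℕ) : E n →L[ℝ] ℝ :=
  if h : a < n + 1 then EuclideanSpace.proj ⟨a, h⟩ else 0

theorem X_apply {n : ℕ} (i : Fin (n + 1)) (x : E n) : X n i x = x i := by
  unfold X
  rw [dif_pos i.2]
  rfl

theorem ext_X {n : ℕ} {x : E n} (h : ∀ a, a < n + 1 → X n a x = 0) : x = 0 := by
  ext i
  have := h i i.2
  rw [X_apply] at this
  simpa using this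

/-- affine dependencies of an affinely independent finset vanish -/
theorem dep_zero {V : Type*} [AddCommGroup V] [Module ℝ V] {T : Finset V}
    (hT : AffineIndependent ℝ ((↑) : T → V)) (a : V → ℝ)
    (h0 : ∑ s ∈ T, a s = 0) (h1 : ∑ s ∈ T, a s • s = 0) : ∀ s ∈ T, a s = 0 := by
  classical
  rw [affineIndependent_iff] at hT
  have := hT Finset.univ (fun s => a s) (by rw [Finset.sum_coe_sort T (fun s => a s)]; exact h0)
    (by rw [Finset.sum_coe_sort T (fun s => a s • s)]; exact h1)
  intro s hs
  exact this ⟨s, hs⟩ (Finset.mem_univ _)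

/-- the dimension count: if all coordinates outside `[q, r)` are constant on the affinely
independent set `T`, then `|T| ≤ (r - q) + 1`. -/
theorem card_bound {n q r : ℕ} {T : Finset (E n)} {y : E n → E n}
    (hy : ∀ s ∈ T, ∀ t ∈ T, inner ℝ (y s) (y t) = inner ℝ s t)
    (hT : AffineIndependent ℝ ((↑) : T → E n))
    (hc : ∀ a, a < n + 1 → (a < q ∨ r ≤ a) → ∀ s ∈ T, ∀ t ∈ T, X n a (y s) = X n a (y t)) :
    T.card ≤ (r - q) + 1 := by
  classical
  rcases T.eq_empty_or_nonempty with rfl | ⟨s0, hs0⟩
  · simp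
  let z : T → (Fin (r - q) → ℝ) := fun s i => X n (q + i) (y s)
  have hz : AffineIndependent ℝ z := by
    rw [affineIndependent_iff]
    intro S w hw0 hw1
    -- extend w by zero to V
    let a : E n → ℝ := fun v => if h : v ∈ T then (if (⟨v, h⟩ : T) ∈ S then w ⟨v, h⟩ else 0) else 0
    have hsum : ∀ (g : E n → ℝ), ∑ s ∈ T, a s * g s = ∑ s ∈ S, w s * g s := by
      intro g
      rw [← Finset.sum_coe_sort T (fun s => a s * g s)]
      rw [← Finset.sum_subset (Finset.subset_univ S)]
      · refine Finset.sum_congr rfl (fun s hs => ?_)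
        simp [a, hs]
      · intro s _ hs
        simp [a, hs]
    have ha0 : ∑ s ∈ T, a s = 0 := by
      have := hsum (fun _ => 1)
      simpa [hw0] using this
    have ha1 : ∑ s ∈ T, a s • y s = 0 := by
      apply ext_X
      intro b hb
      rw [map_sum]
      simp only [map_smul, smul_eq_mul]
      by_cases hbq : b < q ∨ r ≤ b
      · have : ∀ s ∈ T, a s * X n b (y s) = a s * X n b (y s0) := by
          intro s hs
          rw [hc b hb hbq s hs s0 hs0]
        rw [Finset.sum_congr rfl this, ← Finset.sum_mul, ha0, zero_mul]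
      · push Not at hbq
        rw [hsum (fun s => X n b (y s))]
        have h2 := congrFun hw1 ⟨b - q, by omega⟩
        simp only [Finset.sum_apply, Pi.smul_apply, smul_eq_mul, z, Pi.zero_apply] at h2
        rw [← h2]
        refine Finset.sum_congr rfl (fun s _ => ?_)
        congr 3
        omega
    have ha2 := (lin_rel hy a).1 ha1
    have ha3 := dep_zero hT a ha0 ha2
    intro s hs
    have := ha3 s s.2
    simpa [a, hs] using this
  have h1 := hz.card_le_finrank_succ
  have h2 : Module.finrank ℝ (vectorSpan ℝ (Set.range z)) ≤ r - q := by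
    have := Submodule.finrank_le (vectorSpan ℝ (Set.range z))
    simpa using this
  have h3 : Fintype.card T = T.card := by simp
  omega

/-- in a circuit all affine dependencies are proportional -/
theorem circuit_dep {n : ℕ} {T : Finset (E n)} (hT : IsCircuit T) :
    ∃ c : E n → ℝ, ∑ s ∈ T, c s = 0 ∧ ∑ s ∈ T, c s • s = 0 ∧ (∀ s ∈ T, c s ≠ 0) ∧
      ∀ a : E n → ℝ, ∑ s ∈ T, a s = 0 → ∑ s ∈ T, a s • s = 0 →
        ∃ α : ℝ, ∀ s ∈ T, a s = α * c s := by
  classical
  obtain ⟨c, hc1, hc0, s0, hs0, hcs0⟩ := exists_nontrivial_relation_sum_zero_of_not_affine_ind hT.1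
  have key : ∀ a : E n → ℝ, ∑ s ∈ T, a s = 0 → ∑ s ∈ T, a s • s = 0 → ∀ t ∈ T, a t = 0 →
      ∀ s ∈ T, a s = 0 := by
    intro a ha0 ha1 t ht hat s hs
    by_cases hst : s = t
    · rw [hst]; exact hat
    have hind := hT.2 (T.erase t) (Finset.erase_ssubset ht)
    have e0 : ∑ s ∈ T.erase t, a s = 0 := by
      have := Finset.add_sum_erase T a ht
      rw [hat, zero_add] at this
      rw [this]; exact ha0
    have e1 : ∑ s ∈ T.erase t, a s • s = 0 := by
      have := Finset.add_sum_erase T (fun s => a s • s) ht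
      simp only [hat, zero_smul, zero_add] at this
      rw [this]; exact ha1
    exact dep_zero hind a e0 e1 s (Finset.mem_erase.2 ⟨hst, hs⟩)
  refine ⟨c, hc0, hc1, ?_, ?_⟩
  · intro s hs h0
    exact hcs0 (key c hc0 hc1 s hs h0 s0 hs0)
  · intro a ha0 ha1
    refine ⟨a s0 / c s0, fun s hs => ?_⟩
    have := key (fun v => a v - (a s0 / c s0) * c v) (by
      rw [Finset.sum_sub_distrib, ← Finset.mul_sum, ha0, hc0]; simp) (by
      have : ∀ v ∈ T, (a v - (a s0 / c s0) * c v) • v = a v • v - (a s0 / c s0) • (c v • v) := by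
        intro v _
        rw [sub_smul, mul_smul]
      rw [Finset.sum_congr rfl this, Finset.sum_sub_distrib, ← Finset.smul_sum, ha1, hc1]
      simp) s0 hs0 (by field_simp; ring) s hs
    linarith

/-- the index pairs `(a, b)` with `a < q`, `a ≤ b < r` -/
def pairs (q r : ℕ) : Finset (Σ _ : ℕ, ℕ) := (Finset.range q).sigma (fun a => Finset.Ico a r)

theorem two_sum (q r : ℕ) (h : q ≤ r) :
    2 * (∑ a ∈ Finset.range q, (r - a)) + (r - q) * (r - q + 1) = r * (r + 1) := by
  induction q with
  | zero => simp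
  | succ q ih =>
    have ih' := ih (by omega)
    rw [Finset.sum_range_succ]
    obtain ⟨k, rfl⟩ : ∃ k, r = q + 1 + k := ⟨r - (q + 1), by omega⟩
    have e1 : q + 1 + k - q = k + 1 := by omega
    have e2 : q + 1 + k - (q + 1) = k := by omega
    rw [e1] at ih' ⊢
    rw [e2]
    nlinarith [ih']

theorem two_card_pairs (q r : ℕ) (h : q ≤ r) :
    2 * (pairs q r).card + (r - q) * (r - q + 1) = r * (r + 1) := by
  have h1 : (pairs q r).card = ∑ a ∈ Finset.range q, (r - a) := by
    simp [pairs]
  rw [h1]
  exact two_sum q r h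

/-- a finite set with at most `m` elements is covered by a function on `Fin m`. -/
theorem exists_cover {α : Type*} [Inhabited α] (P : Finset α) {m : ℕ} (h : P.card ≤ m) :
    ∃ g : Fin m → α, ∀ p ∈ P, ∃ j, g j = p := by
  classical
  refine ⟨fun j => if h : (j : ℕ) < P.card then (P.equivFin.symm ⟨j, h⟩ : α) else default, ?_⟩
  intro p hp
  refine ⟨⟨P.equivFin ⟨p, hp⟩, lt_of_lt_of_le (Fin.is_lt _) h⟩, ?_⟩
  simp

/-- main theorem on circuits -/
theorem circuit_fail {n m d : ℕ} {T : Finset (E n)} (hT1 : ∀ s ∈ T, ‖s‖ = 1)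
    (hcard : T.card = d + 2) (hT : IsCircuit T)
    (hm : (n + 1 - m) * (n + 2 - m) ≤ 2 * m + d * (d - 1)) : ¬ KnasterProperty n m T := by
  classical
  intro hK
  -- r = n + 1 - m
  obtain ⟨r, hr⟩ : ∃ r, r = n + 1 - m := ⟨_, rfl⟩
  obtain ⟨q, hq⟩ : ∃ q, q = r + 1 - d := ⟨_, rfl⟩
  have hTne : ∃ s0, s0 ∈ T := by
    have : 0 < T.card := by omega
    obtain ⟨s0, h⟩ := Finset.card_pos.1 this
    exact ⟨s0, h⟩
  obtain ⟨s0, hs0⟩ := hTne
  -- d ≥ 1
  have hd : 1 ≤ d := by
    by_contra hd0
    have hd0 : d = 0 := by omega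
    subst hd0
    obtain ⟨a, b, hab, rfl⟩ := Finset.card_eq_two.1 hcard
    apply hT.1
    obtain ⟨c, hc0, hc1, hcne, -⟩ := circuit_dep hT
    exfalso
    rw [Finset.sum_pair hab] at hc0 hc1
    have : c a • (a - b) = 0 := by
      have e : c b = - c a := by linarith
      rw [e] at hc1
      rw [smul_sub]
      rw [neg_smul] at hc1
      rw [sub_eq_add_neg]
      exact hc1
    rcases smul_eq_zero.1 this with h | h
    · exact hcne a (by simp) h
    · exact hab (sub_eq_zero.1 h)
  have hqr : q ≤ r := by omega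
  have hP : (pairs q r).card ≤ m := by
    by_cases hdr : d ≤ r
    · have h1 := two_card_pairs q r hqr
      have e1 : r - q = d - 1 := by omega
      have e2 : n + 2 - m = r + 1 := by
        by_cases hmn : m ≤ n + 1
        · omega
        · exfalso; omega
      rw [e1] at h1
      rw [← hr, e2] at hm
      have e3 : (d - 1) * (d - 1 + 1) = d * (d - 1) := by
        have : d - 1 + 1 = d := by omega
        rw [this, Nat.mul_comm]
      rw [e3] at h1
      omega
    · have : q = 0 := by omega
      subst this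
      simp [pairs]
  obtain ⟨g, hg⟩ := exists_cover (pairs q r) hP
  obtain ⟨y, hy1, hy2, hy3⟩ := limit_lemma hT1 hK (fun j => X n (r + j))
    (fun j x => X n (g j).1 x * X n (g j).2 x) (fun j => by fun_prop)
  obtain ⟨c, hc0, hc1, hcne, hcdep⟩ := circuit_dep hT
  have hc1' : ∑ s ∈ T, c s • y s = 0 := (lin_rel hy1 c).2 hc1
  -- coordinates beyond r are constant
  have hcoord2 : ∀ b, b < n + 1 → r ≤ b → ∀ s ∈ T, ∀ t ∈ T, X n b (y s) = X n b (y t) := by
    intro b hb hrb s hs t ht
    have hbm : b - r < m := by omega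
    have := hy2 ⟨b - r, hbm⟩ s hs t ht
    have e : r + (b - r) = b := by omega
    simpa [e] using this
  -- products
  have hprod : ∀ a, a < q → ∀ b, b < r → ∑ s ∈ T, c s * (X n a (y s) * X n b (y s)) = 0 := by
    have aux : ∀ a, a < q → ∀ b, a ≤ b → b < r →
        ∑ s ∈ T, c s * (X n a (y s) * X n b (y s)) = 0 := by
      intro a ha b hab hb
      obtain ⟨j, hj⟩ := hg ⟨a, b⟩ (by simp [pairs, ha, hab, hb])
      have := hy3 c hc0 hc1 j
      simpa [hj] using this
    intro a ha b hb
    rcases le_total a b with h | h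
    · exact aux a ha b h hb
    · have := aux b (by omega) a h (by omega)
      rw [← this]
      refine Finset.sum_congr rfl (fun s _ => by ring)
  -- coordinates below q are constant
  have hcoord1 : ∀ a, a < q → ∀ s ∈ T, ∀ t ∈ T, X n a (y s) = X n a (y t) := by
    intro a ha
    have h0 : ∑ s ∈ T, c s * X n a (y s) = 0 := by
      have := congrArg (X n a) hc1'
      simpa [map_sum] using this
    have h1 : ∑ s ∈ T, (c s * X n a (y s)) • y s = 0 := by
      apply ext_X
      intro b hb
      rw [map_sum]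
      simp only [map_smul, smul_eq_mul]
      by_cases hbr : b < r
      · rw [← hprod a ha b hbr]
        refine Finset.sum_congr rfl (fun s _ => by ring)
      · have : ∀ s ∈ T, c s * X n a (y s) * X n b (y s) = c s * X n a (y s) * X n b (y s0) := by
          intro s hs
          rw [hcoord2 b hb (by omega) s hs s0 hs0]
        rw [Finset.sum_congr rfl this, ← Finset.sum_mul, h0, zero_mul]
    obtain ⟨α, hα⟩ := hcdep (fun s => c s * X n a (y s)) h0 ((lin_rel hy1 _).1 h1)
    intro s hs t ht
    have e1 := hα s hs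
    have e2 := hα t ht
    rw [mul_comm α] at e1 e2
    rw [mul_left_cancel₀ (hcne s hs) e1, mul_left_cancel₀ (hcne t ht) e2]
  -- dimension count on T minus a point
  have hsub : T.erase s0 ⊂ T := Finset.erase_ssubset hs0
  have hmem : ∀ s ∈ T.erase s0, s ∈ T := fun s hs => Finset.mem_of_mem_erase hs
  have hb := card_bound (q := q) (r := r) (y := y)
    (fun s hs t ht => hy1 s (hmem s hs) t (hmem t ht)) (hT.2 _ hsub)
    (fun a ha hqa s hs t ht => by
      rcases hqa with h | h
      · exact hcoord1 a h s (hmem s hs) t (hmem t ht)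
      · exact hcoord2 a ha h s (hmem s hs) t (hmem t ht))
  rw [Finset.card_erase_of_mem hs0, hcard] at hb
  omega

/-- Knaster's bound for affinely independent sets -/
theorem card_le {n m : ℕ} {S : Finset (E n)} (hS1 : ∀ s ∈ S, ‖s‖ = 1)
    (hS : AffineIndependent ℝ ((↑) : S → E n)) (hK : KnasterProperty n m S) :
    S.card ≤ (n + 1 - m) + 1 := by
  obtain ⟨y, hy1, hy2, hy3⟩ := limit_lemma hS1 hK (fun j => X n (n + 1 - m + j))
    (fun _ _ => 0) (fun j => continuous_const)
  have := card_bound (q := 0) (r := n + 1 - m) hy1 hS (fun a ha hqa s hs t ht => by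
    rcases hqa with h | h
    · omega
    · have hbm : a - (n + 1 - m) < m := by omega
      have := hy2 ⟨a - (n + 1 - m), hbm⟩ s hs t ht
      have e : n + 1 - m + (a - (n + 1 - m)) = a := by omega
      simpa [e] using this)
  simpa using this

end H208.Knaster
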