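import Pool.Agent.H208.Knaster.Circuit

namespace H208.Knaster

open Filter Topology Polynomial

theorem mul_const_natDegree {U V : ℝ[X]} {k : ℝ} (hk : k ≠ 0) (h : U * V = C k) :
    U.natDegree = 0 ∧ V.natDegree = 0 := by
  have hUV : U * V ≠ 0 := by
    rw [h]
    exact C_ne_zero.2 hk
  have hU : U ≠ 0 := left_ne_zero_of_mul hUV
  have hV : V ≠ 0 := right_ne_zero_of_mul hUV
  have := natDegree_mul hU hV
  rw [h, natDegree_C] at this
  omega

theorem dep_of_const {p q : ℝ[X]} (hp : p.natDegree = 0) (hq : q.natDegree = 0) :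
    ∃ α β : ℝ, (α ≠ 0 ∨ β ≠ 0) ∧ C α * p + C β * q = 0 := by
  rw [eq_C_of_natDegree_eq_zero hp, eq_C_of_natDegree_eq_zero hq]
  by_cases h : p.coeff 0 = 0
  · exact ⟨1, 0, Or.inl one_ne_zero, by simp [h]⟩
  · refine ⟨q.coeff 0, - p.coeff 0, Or.inr (neg_ne_zero.2 h), ?_⟩
    rw [← C_mul, ← C_mul, ← C_add]
    rw [show q.coeff 0 * p.coeff 0 + -p.coeff 0 * q.coeff 0 = 0 by ring, C_0]

/-- a nonconstant polynomial is unbounded -/
theorem const_of_sq_le {U : ℝ[X]} {k : ℝ} (h : ∀ t, (U.eval t) ^ 2 ≤ k) : U.natDegree = 0 := by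
  have h1 : U.degree ≤ 0 := by
    rw [← Polynomial.isBoundedUnder_abs_atTop_iff]
    refine ⟨|k| + 1, ?_⟩
    simp only [eventually_map]
    refine Filter.Eventually.of_forall (fun t => ?_)
    have h2 := h t
    have h3 : |U.eval t| ^ 2 ≤ |k| := by
      rw [sq_abs]; exact h2.trans (le_abs_self k)
    have h4 := abs_nonneg (U.eval t)
    have h5 := abs_nonneg k
    nlinarith
  exact natDegree_eq_zero_iff_degree_le_zero.2 h1

/-- Real polynomials `p, q` satisfying a nondegenerate homogeneous quadratic relation with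
constant right-hand side are linearly dependent over `ℝ`. -/
theorem conic_dep {p q : ℝ[X]} {A B D κ : ℝ} (hΔ : B ^ 2 - A * D ≠ 0)
    (h : C A * p ^ 2 + C (2 * B) * (p * q) + C D * q ^ 2 = C κ) :
    ∃ α β : ℝ, (α ≠ 0 ∨ β ≠ 0) ∧ C α * p + C β * q = 0 := by
  by_cases hA : A = 0
  · subst hA
    have hB : B ≠ 0 := by
      rintro rfl
      exact hΔ (by ring)
    have h1 : q * (C (2 * B) * p + C D * q) = C κ := by
      rw [← h]
      simp only [C_0]
      ring
    by_cases hκ : κ = 0
    · rw [hκ, C_0] at h1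
      rcases mul_eq_zero.1 h1 with h2 | h2
      · exact ⟨0, 1, Or.inr one_ne_zero, by simp [h2]⟩
      · exact ⟨2 * B, D, Or.inl (by simpa using hB), h2⟩
    · obtain ⟨h2, h3⟩ := mul_const_natDegree hκ h1
      apply dep_of_const _ h2
      -- p is constant
      have e : p = C (1 / (2 * B)) * ((C (2 * B) * p + C D * q) - C D * q) := by
        rw [add_sub_cancel_right, ← mul_assoc, ← C_mul]
        rw [show 1 / (2 * B) * (2 * B) = 1 by field_simp]
        simp
      rw [e, eq_C_of_natDegree_eq_zero h3]
      rw [eq_C_of_natDegree_eq_zero h2]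
      rw [← C_mul, ← C_sub, ← C_mul, natDegree_C]
  · rcases lt_or_gt_of_ne hΔ with hneg | hpos
    · -- definite case
      have h1 : ∀ t, (A * p.eval t + B * q.eval t) ^ 2 + (A * D - B ^ 2) * (q.eval t) ^ 2
          = A * κ := by
        intro t
        have := congrArg (Polynomial.eval t) h
        simp only [eval_add, eval_mul, eval_C, eval_pow] at this
        rw [← this]
        ring
      have hq : q.natDegree = 0 := by
        apply const_of_sq_le (k := A * κ / (A * D - B ^ 2))
        intro t
        have hpos : 0 < A * D - B ^ 2 := by linarith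
        rw [le_div_iff₀ hpos]
        have := h1 t
        nlinarith [sq_nonneg (A * p.eval t + B * q.eval t)]
      have hU : (C A * p + C B * q).natDegree = 0 := by
        apply const_of_sq_le (k := A * κ)
        intro t
        have hpos : 0 < A * D - B ^ 2 := by linarith
        have := h1 t
        simp only [eval_add, eval_mul, eval_C]
        nlinarith [sq_nonneg (q.eval t), mul_nonneg hpos.le (sq_nonneg (q.eval t))]
      apply dep_of_const _ hq
      have e : p = C (1 / A) * ((C A * p + C B * q) - C B * q) := by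
        rw [add_sub_cancel_right, ← mul_assoc, ← C_mul]
        rw [show 1 / A * A = 1 by field_simp]
        simp
      rw [e, eq_C_of_natDegree_eq_zero hU, eq_C_of_natDegree_eq_zero hq]
      rw [← C_mul, ← C_sub, ← C_mul, natDegree_C]
    · obtain ⟨s, hs⟩ : ∃ s : ℝ, s ^ 2 = B ^ 2 - A * D := ⟨Real.sqrt _, Real.sq_sqrt hpos.le⟩
      have hs0 : s ≠ 0 := by
        rintro rfl
        simp at hs
        linarith
      have h1 : (C A * p + C (B + s) * q) * (C A * p + C (B - s) * q) = C (A * κ) := by
        rw [C_mul, ← h]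
        have e1 : (C (B + s) : ℝ[X]) * C (B - s) = C A * C D := by
          rw [← C_mul, ← C_mul]
          congr 1
          nlinarith
        have e2 : (C (B + s) : ℝ[X]) + C (B - s) = C (2 * B) := by
          rw [← C_add]
          congr 1
          ring
        linear_combination (q ^ 2) * e1 + (C A * p * q) * e2
      by_cases hκ : A * κ = 0
      · rw [hκ, C_0] at h1
        rcases mul_eq_zero.1 h1 with h2 | h2
        · exact ⟨A, B + s, Or.inl hA, h2⟩
        · exact ⟨A, B - s, Or.inl hA, h2⟩
      · obtain ⟨h2, h3⟩ := mul_const_natDegree hκ h1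
        have hq : q.natDegree = 0 := by
          have e : q = C (1 / (2 * s)) *
              ((C A * p + C (B + s) * q) - (C A * p + C (B - s) * q)) := by
            have e1 : (C A * p + C (B + s) * q) - (C A * p + C (B - s) * q) = C (2 * s) * q := by
              have : (C (B + s) : ℝ[X]) - C (B - s) = C (2 * s) := by
                rw [← C_sub]
                congr 1
                ring
              linear_combination q * this
            rw [e1, ← mul_assoc, ← C_mul]
            rw [show 1 / (2 * s) * (2 * s) = 1 by field_simp]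
            simp
          rw [e, eq_C_of_natDegree_eq_zero h2, eq_C_of_natDegree_eq_zero h3]
          rw [← C_sub, ← C_mul, natDegree_C]
        apply dep_of_const _ hq
        have e : p = C (1 / A) * ((C A * p + C (B + s) * q) - C (B + s) * q) := by
          rw [add_sub_cancel_right, ← mul_assoc, ← C_mul]
          rw [show 1 / A * A = 1 by field_simp]
          simp
        rw [e, eq_C_of_natDegree_eq_zero h2, eq_C_of_natDegree_eq_zero hq]
        rw [← C_mul, ← C_sub, ← C_mul, natDegree_C]

/-- the polynomial whose coefficients are the first `r` coordinates -/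
noncomputable def P (n r : ℕ) : E n →ₗ[ℝ] ℝ[X] :=
  ∑ a ∈ Finset.range r, (Polynomial.monomial a).comp (H208.Knaster.X n a).toLinearMap

theorem P_coeff (n r b : ℕ) (x : E n) :
    (P n r x).coeff b = if b < r then H208.Knaster.X n b x else 0 := by
  simp only [P, LinearMap.sum_apply, LinearMap.comp_apply, Polynomial.finsetSum_coeff,
    Polynomial.coeff_monomial]
  by_cases hb : b < r
  · rw [if_pos hb, Finset.sum_eq_single_of_mem b (Finset.mem_range.2 hb)]
    · simp
    · intro a _ hab
      simp [hab]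
  · rw [if_neg hb]
    refine Finset.sum_eq_zero (fun a ha => ?_)
    rw [if_neg]
    rintro rfl
    exact hb (Finset.mem_range.1 ha)

/-- Four concyclic points. -/
theorem four_fail {n m : ℕ} {T : Finset (E n)} (hT1 : ∀ s ∈ T, ‖s‖ = 1)
    (hcard : T.card = 4) (hT : IsCircuit T)
    (hm : 2 * n ≤ 3 * m) : ¬ KnasterProperty n m T := by
  classical
  intro hK
  obtain ⟨r, hr⟩ : ∃ r, r = n + 1 - m := ⟨_, rfl⟩
  let W : ℕ → E n → ℝ := fun b x => if b < r then H208.Knaster.X n b x else 0
  have hW : ∀ b, Continuous (W b) := by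
    intro b
    by_cases hb : b < r
    · simp only [W, hb, if_true]
      exact (H208.Knaster.X n b).continuous
    · simp only [W, hb, if_false]
      exact continuous_const
  obtain ⟨y, hy1, hy2, hy3⟩ := limit_lemma hT1 hK (fun j => H208.Knaster.X n (r + j))
    (fun j x => ∑ p ∈ Finset.HasAntidiagonal.antidiagonal ((j : ℕ) + 1), W p.1 x * W p.2 x) (fun j => by
      refine continuous_finsetSum _ (fun p _ => (hW _).mul (hW _)))
  obtain ⟨c, hc0, hc1, hcne, hcdep⟩ := circuit_dep hT
  have hc1' : ∑ s ∈ T, c s • y s = 0 := (lin_rel hy1 c).2 hc1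
  have hcoord2 : ∀ b, b < n + 1 → r ≤ b → ∀ s ∈ T, ∀ t ∈ T,
      H208.Knaster.X n b (y s) = H208.Knaster.X n b (y t) := by
    intro b hb hrb s hs t ht
    have hbm : b - r < m := by omega
    have := hy2 ⟨b - r, hbm⟩ s hs t ht
    have e : r + (b - r) = b := by omega
    simpa [e] using this
  have hsq : ∀ (x : E n) (k : ℕ), ((P n r x) ^ 2).coeff k =
      ∑ p ∈ Finset.HasAntidiagonal.antidiagonal k, W p.1 x * W p.2 x := by
    intro x k
    rw [sq, Polynomial.coeff_mul]
    refine Finset.sum_congr rfl (fun p _ => ?_)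
    rw [P_coeff, P_coeff]
  -- the sum of squares is constant
  have hR : ∃ K : ℝ, ∑ s ∈ T, C (c s) * (P n r (y s)) ^ 2 = C K := by
    refine ⟨(∑ s ∈ T, C (c s) * (P n r (y s)) ^ 2).coeff 0, ?_⟩
    ext k
    rw [Polynomial.coeff_C]
    by_cases hk : k = 0
    · simp [hk]
    · rw [if_neg hk]
      simp only [Polynomial.finsetSum_coeff, Polynomial.coeff_C_mul, hsq]
      by_cases hkm : k ≤ m
      · have := hy3 c hc0 hc1 ⟨k - 1, by omega⟩
        have e : k - 1 + 1 = k := by omega
        simpa [e] using this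
      · refine Finset.sum_eq_zero (fun s _ => ?_)
        rw [Finset.sum_eq_zero, mul_zero]
        intro p hp
        rw [Finset.HasAntidiagonal.mem_antidiagonal] at hp
        have : ¬ p.1 < r ∨ ¬ p.2 < r := by omega
        rcases this with h | h
        · simp [W, h]
        · simp [W, h]
  obtain ⟨K, hR⟩ := hR
  have hlin : ∑ s ∈ T, C (c s) * P n r (y s) = 0 := by
    have := congrArg (P n r) hc1'
    simpa [map_sum, Polynomial.smul_eq_C_mul] using this
  -- name the points
  obtain ⟨s4, hs4⟩ : ∃ s4, s4 ∈ T := by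
    have : 0 < T.card := by omega
    obtain ⟨s0, h⟩ := Finset.card_pos.1 this
    exact ⟨s0, h⟩
  have hcard3 : (T.erase s4).card = 3 := by
    rw [Finset.card_erase_of_mem hs4, hcard]
  obtain ⟨s1, s2, s3, h12, h13, h23, hTe⟩ := Finset.card_eq_three.1 hcard3
  have hTeq : T = insert s4 {s1, s2, s3} := by
    rw [← hTe, Finset.insert_erase hs4]
  have hn4 : s4 ∉ ({s1, s2, s3} : Finset (E n)) := by
    rw [← hTe]; simp
  simp only [Finset.mem_insert, Finset.mem_singleton, not_or] at hn4
  obtain ⟨h41, h42, h43⟩ := hn4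
  have hsum : ∀ {M : Type} [AddCommMonoid M] (g : E n → M),
      ∑ s ∈ T, g s = g s4 + (g s1 + (g s2 + g s3)) := by
    intro M _ g
    rw [hTeq, Finset.sum_insert (by simp [h41, h42, h43]),
      Finset.sum_insert (by simp [h12, h13]), Finset.sum_pair h23]
  have hsumE : ∀ (g : E n → E n),
      ∑ s ∈ T, g s = g s4 + (g s1 + (g s2 + g s3)) := fun g => hsum g
  have m1 : s1 ∈ T := by rw [hTeq]; simp
  have m2 : s2 ∈ T := by rw [hTeq]; simp
  have m3 : s3 ∈ T := by rw [hTeq]; simp
  have n1 := hcne s1 m1
  have n2 := hcne s2 m2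
  have n3 := hcne s3 m3
  have n4 := hcne s4 hs4
  rw [hsum] at hc0 hlin hR
  have hc4 : c s4 = -(c s1 + c s2 + c s3) := by linarith
  have hC4 : (C (c s4) : ℝ[X]) = -(C (c s1) + C (c s2) + C (c s3)) := by
    rw [hc4]; simp
  rw [hC4] at hlin hR
  set p1 := P n r (y s1) with hp1
  set p2 := P n r (y s2) with hp2
  set p3 := P n r (y s3) with hp3
  set p4 := P n r (y s4) with hp4
  have hconic : C (c s1 * (c s1 + c s3)) * (p1 - p4) ^ 2 +
      C (2 * (c s1 * c s2)) * ((p1 - p4) * (p2 - p4)) +
      C (c s2 * (c s2 + c s3)) * (p2 - p4) ^ 2 = C (c s3 * K) := by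
    simp only [C_mul, C_add, C_ofNat]
    linear_combination ((C (c s1) * (p1 - p4) + C (c s2) * (p2 - p4) - C (c s3) * (p3 - p4))
      - 2 * C (c s3) * p4) * hlin + C (c s3) * hR
  have hΔ : (c s1 * c s2) ^ 2 - (c s1 * (c s1 + c s3)) * (c s2 * (c s2 + c s3)) ≠ 0 := by
    have : (c s1 * c s2) ^ 2 - (c s1 * (c s1 + c s3)) * (c s2 * (c s2 + c s3)) =
        c s1 * c s2 * c s3 * c s4 := by
      rw [hc4]; ring
    rw [this]
    exact mul_ne_zero (mul_ne_zero (mul_ne_zero n1 n2) n3) n4
  obtain ⟨α, β, hαβ, hdep⟩ := conic_dep hΔ hconic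
  -- the affine dependency
  let a : E n → ℝ := fun s => if s = s1 then α else if s = s2 then β else
    if s = s4 then -(α + β) else 0
  have a1 : a s1 = α := by simp [a]
  have a2 : a s2 = β := by simp [a, h12.symm]
  have a3 : a s3 = 0 := by simp [a, h13.symm, h23.symm, Ne.symm h43]
  have a4 : a s4 = -(α + β) := by simp [a, h41, h42]
  have ha0 : ∑ s ∈ T, a s = 0 := by
    rw [hsum, a1, a2, a3, a4]; ring
  have ha1 : ∑ s ∈ T, a s • y s = 0 := by
    apply ext_X
    intro b hb
    by_cases hbr : b < r
    · have h5 : (P n r (∑ s ∈ T, a s • y s)).coeff b = 0 := by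
        have : P n r (∑ s ∈ T, a s • y s) = 0 := by
          rw [hsumE, a1, a2, a3, a4]
          simp only [map_add, map_smul, Polynomial.smul_eq_C_mul]
          rw [← hp1, ← hp2, ← hp3, ← hp4]
          simp only [C_neg, C_add, C_0]
          linear_combination hdep
        rw [this, Polynomial.coeff_zero]
      rw [P_coeff, if_pos hbr] at h5
      exact h5
    · rw [map_sum]
      simp only [map_smul, smul_eq_mul]
      have : ∀ s ∈ T, a s * H208.Knaster.X n b (y s) = a s * H208.Knaster.X n b (y s4) := by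
        intro s hs
        rw [hcoord2 b hb (by omega) s hs s4 hs4]
      rw [Finset.sum_congr rfl this, ← Finset.sum_mul, ha0, zero_mul]
  obtain ⟨γ, hγ⟩ := hcdep a ha0 ((lin_rel hy1 a).1 ha1)
  have e3 := hγ s3 m3
  rw [a3] at e3
  have hγ0 : γ = 0 := by
    rcases mul_eq_zero.1 e3.symm with h | h
    · exact h
    · exact absurd h n3
  have e1 := hγ s1 m1
  have e2 := hγ s2 m2
  rw [a1, hγ0, zero_mul] at e1
  rw [a2, hγ0, zero_mul] at e2
  rcases hαβ with h | h
  · exact h e1
  · exact h e2

end H208.Knaster
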