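import Pool.Agent.H208.Knaster.Even

namespace H208.Knaster

open Filter Topology

theorem cone_continuous {r k : ℕ} (g : EuclideanSpace ℝ (Fin r) → EuclideanSpace ℝ (Fin k))
    (hg : ContinuousOn g (Metric.sphere 0 1)) :
    Continuous (fun w : EuclideanSpace ℝ (Fin r) => ‖w‖ • g (‖w‖⁻¹ • w)) := by
  obtain ⟨C, hC⟩ := (isCompact_sphere (0 : EuclideanSpace ℝ (Fin r)) 1).exists_bound_of_continuousOn hg
  have hunit : ∀ w : EuclideanSpace ℝ (Fin r), w ≠ 0 → ‖w‖⁻¹ • w ∈ Metric.sphere (0 : EuclideanSpace ℝ (Fin r)) 1 := by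
    intro w hw
    rw [mem_sphere_zero_iff_norm, norm_smul, norm_inv, norm_norm]
    exact inv_mul_cancel₀ (norm_ne_zero_iff.2 hw)
  rw [continuous_iff_continuousAt]
  intro w
  by_cases hw : w = 0
  · subst hw
    have hb : ∀ w' : EuclideanSpace ℝ (Fin r), ‖‖w'‖ • g (‖w'‖⁻¹ • w')‖ ≤ ‖w'‖ * |C| := by
      intro w'
      rw [norm_smul, norm_norm]
      by_cases hw' : w' = 0
      · subst hw'; simp
      · exact mul_le_mul_of_nonneg_left ((hC _ (hunit w' hw')).trans (le_abs_self C)) (norm_nonneg _)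
    have h0 : Tendsto (fun w' : EuclideanSpace ℝ (Fin r) => ‖w'‖ * |C|) (𝓝 0) (𝓝 0) := by
      have : Continuous (fun w' : EuclideanSpace ℝ (Fin r) => ‖w'‖ * |C|) := by fun_prop
      have h := this.tendsto 0
      simpa using h
    have h1 := squeeze_zero_norm hb h0
    have e : (fun w : EuclideanSpace ℝ (Fin r) => ‖w‖ • g (‖w‖⁻¹ • w)) 0 = 0 := by simp
    unfold ContinuousAt
    rw [e]
    exact h1
  · have hco : ContinuousOn (fun w : EuclideanSpace ℝ (Fin r) => ‖w‖ • g (‖w‖⁻¹ • w))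
        ({0}ᶜ : Set (EuclideanSpace ℝ (Fin r))) := by
      refine ContinuousOn.smul continuous_norm.continuousOn ?_
      refine hg.comp (t := Metric.sphere 0 1) ?_ ?_
      · have hid : ContinuousOn (fun v : EuclideanSpace ℝ (Fin r) => v)
            ({0}ᶜ : Set (EuclideanSpace ℝ (Fin r))) := continuousOn_id
        exact (continuous_norm.continuousOn.inv₀ (fun v hv => norm_ne_zero_iff.2 hv)).smul hid
      · intro v hv
        exact hunit v hv
    exact hco.continuousAt (isOpen_compl_singleton.mem_nhds hw)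

/-- the first `r` coordinates -/
noncomputable def proj (n r : ℕ) (z : E n) : EuclideanSpace ℝ (Fin r) :=
  WithLp.toLp 2 (fun i : Fin r => H208.Knaster.X n i z)

theorem continuous_proj (n r : ℕ) : Continuous (proj n r) := by
  unfold proj
  refine (PiLp.continuous_toLp 2 _).comp ?_
  exact continuous_pi (fun j => (H208.Knaster.X n j).continuous)

theorem proj_neg (n r : ℕ) (z : E n) : proj n r (-z) = - proj n r z := by
  ext i
  simp [proj]

theorem norm_proj (n r : ℕ) (z : E n) :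
    ‖proj n r z‖ ^ 2 = ∑ b ∈ Finset.range r, (H208.Knaster.X n b z) ^ 2 := by
  rw [EuclideanSpace.real_norm_sq_eq, Finset.sum_range]
  rfl

theorem norm_proj_one {n r : ℕ} (hrn : r ≤ n + 1) {x : E n} (hx : ‖x‖ = 1)
    (hx0 : ∀ b, r ≤ b → b < n + 1 → H208.Knaster.X n b x = 0) : ‖proj n r x‖ = 1 := by
  have h1 : ‖proj n r x‖ ^ 2 = 1 := by
    rw [norm_proj]
    have h2 := norm_coords x
    rw [← Finset.sum_range_add_sum_Ico _ hrn] at h2
    have h3 : ∑ b ∈ Finset.Ico r (n + 1), (H208.Knaster.X n b x) ^ 2 = 0 := by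
      refine Finset.sum_eq_zero (fun b hb => ?_)
      rw [Finset.mem_Ico] at hb
      rw [hx0 b hb.1 hb.2]
      simp
    rw [hx] at h2
    linarith
  have h4 := norm_nonneg (proj n r x)
  nlinarith

theorem proj_eq {n r : ℕ} {x y : E n} (h : proj n r x = proj n r y) :
    ∀ b, b < r → H208.Knaster.X n b x = H208.Knaster.X n b y := by
  intro b hb
  have := congrArg (fun w : EuclideanSpace ℝ (Fin r) => w ⟨b, hb⟩) h
  simpa [proj] using this

/-- `RP^{r-1}` embeds in the set `K ⊆ R^k`: there is a continuous map from the unit sphere of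
`R^r` to `K` that takes equal values at two points exactly if they are equal or antipodal. -/
def ProjEmbeds (r k : ℕ) (K : Set (EuclideanSpace ℝ (Fin k))) : Prop :=
  ∃ g : EuclideanSpace ℝ (Fin r) → EuclideanSpace ℝ (Fin k),
    ContinuousOn g (Metric.sphere 0 1) ∧ (∀ x ∈ Metric.sphere 0 1, g x ∈ K) ∧
    ∀ x ∈ Metric.sphere 0 1, ∀ y ∈ Metric.sphere 0 1, g x = g y ↔ x = y ∨ x = -y

theorem cone_neg {r k : ℕ} {g : EuclideanSpace ℝ (Fin r) → EuclideanSpace ℝ (Fin k)}
    (hg : ∀ x ∈ Metric.sphere 0 1, ∀ y ∈ Metric.sphere 0 1, g x = g y ↔ x = y ∨ x = -y)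
    (w : EuclideanSpace ℝ (Fin r)) :
    ‖-w‖ • g (‖-w‖⁻¹ • -w) = ‖w‖ • g (‖w‖⁻¹ • w) := by
  by_cases hw : w = 0
  · subst hw; simp
  · have hu : ‖w‖⁻¹ • w ∈ Metric.sphere (0 : EuclideanSpace ℝ (Fin r)) 1 := by
      rw [mem_sphere_zero_iff_norm, norm_smul, norm_inv, norm_norm]
      exact inv_mul_cancel₀ (norm_ne_zero_iff.2 hw)
    rw [norm_neg, smul_neg]
    congr 1
    refine (hg _ ?_ _ hu).2 (Or.inr rfl)
    rw [mem_sphere_zero_iff_norm, norm_neg]
    exact mem_sphere_zero_iff_norm.1 hu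

theorem embed_one {n m r : ℕ} (hr : n + 1 = m + r) (hE : ProjEmbeds r m (Metric.sphere 0 1))
    {S : Finset (E n)} {s t : E n} (hs1 : ‖s‖ = 1) (ht1 : ‖t‖ = 1)
    (hs : s ∈ S) (hs' : -s ∈ S) (ht : t ∈ S) (h1 : t ≠ s) (h2 : t ≠ -s) :
    ¬ KnasterProperty n m S := by
  classical
  obtain ⟨g, hgc, hgn, hg⟩ := hE
  have hrn : r ≤ n + 1 := by omega
  have hcone := (cone_continuous g hgc).comp (continuous_proj n r)
  refine antipodal_abstract (r := r) hr
    (fun j z => (‖proj n r z‖ • g (‖proj n r z‖⁻¹ • proj n r z)) j) ?_ ?_ ?_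
    hs1 ht1 hs hs' ht h1 h2
  · intro j
    exact (EuclideanSpace.proj (𝕜 := ℝ) j).continuous.comp hcone
  · intro j x
    simp only [proj_neg]
    rw [cone_neg hg]
  · intro x y hx hy hx0 hq
    have hpx := norm_proj_one hrn hx hx0
    have hqe : ‖proj n r x‖ • g (‖proj n r x‖⁻¹ • proj n r x) =
        ‖proj n r y‖ • g (‖proj n r y‖⁻¹ • proj n r y) := by
      ext j
      exact hq j
    have hpxs : proj n r x ∈ Metric.sphere (0 : EuclideanSpace ℝ (Fin r)) 1 :=
      mem_sphere_zero_iff_norm.2 hpx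
    rw [hpx, inv_one, one_smul, one_smul] at hqe
    have hn1 : ‖g (proj n r x)‖ = 1 := mem_sphere_zero_iff_norm.1 (hgn _ hpxs)
    have hy0 : proj n r y ≠ 0 := by
      intro h0
      rw [h0, norm_zero, zero_smul] at hqe
      rw [hqe, norm_zero] at hn1
      norm_num at hn1
    have hu : ‖proj n r y‖⁻¹ • proj n r y ∈ Metric.sphere (0 : EuclideanSpace ℝ (Fin r)) 1 := by
      rw [mem_sphere_zero_iff_norm, norm_smul, norm_inv, norm_norm]
      exact inv_mul_cancel₀ (norm_ne_zero_iff.2 hy0)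
    have hpy : ‖proj n r y‖ = 1 := by
      have h5 : ‖g (proj n r x)‖ = ‖proj n r y‖ * 1 := by
        rw [hqe, norm_smul, norm_norm, mem_sphere_zero_iff_norm.1 (hgn _ hu)]
      rw [hn1] at h5
      linarith
    rw [hpy, inv_one, one_smul, one_smul] at hqe
    rcases (hg _ hpxs _ (mem_sphere_zero_iff_norm.2 hpy)).1 hqe with h | h
    · left
      exact eq_of_coords hrn hx hy hx0 (proj_eq h)
    · right
      rw [← proj_neg] at h
      exact eq_of_coords hrn hx (by rw [norm_neg]; exact hy) hx0 (proj_eq h)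

theorem embed_two {n m r : ℕ} (hr : n + 1 = m + r) (hE : ProjEmbeds r m Set.univ)
    {S : Finset (E n)} {s t : E n} (hs1 : ‖s‖ = 1) (ht1 : ‖t‖ = 1)
    (hs : s ∈ S) (hs' : -s ∈ S) (ht : t ∈ S) (ht' : -t ∈ S) (h1 : t ≠ s) (h2 : t ≠ -s) :
    ¬ KnasterProperty n m S := by
  classical
  intro hK
  obtain ⟨g, hgc, _, hg⟩ := hE
  have hrn : r ≤ n + 1 := by omega
  have hcone := (cone_continuous g hgc).comp (continuous_proj n r)
  obtain ⟨O, _, hO⟩ := hK (fun z => ‖proj n r z‖ • g (‖proj n r z‖⁻¹ • proj n r z) +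
      WithLp.toLp 2 (fun j : Fin m => H208.Knaster.X n (r + j) z)) (by
    refine (Continuous.add hcone ?_).continuousOn
    refine (PiLp.continuous_toLp 2 _).comp ?_
    exact continuous_pi (fun j => (H208.Knaster.X n (r + j)).continuous))
  have key : ∀ u ∈ S, -u ∈ S → ∀ j : Fin m, H208.Knaster.X n (r + j) (O u) = 0 := by
    intro u hu hu' j
    have h3 := hO u hu (-u) hu'
    simp only [map_neg, proj_neg] at h3
    rw [cone_neg hg] at h3
    have h4 := congrArg (fun v : EuclideanSpace ℝ (Fin m) => v j) (add_left_cancel h3)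
    simp only at h4
    linarith
  have tail : ∀ u ∈ S, -u ∈ S → ∀ b, r ≤ b → b < n + 1 → H208.Knaster.X n b (O u) = 0 := by
    intro u hu hu' b hrb hb
    have := key u hu hu' ⟨b - r, by omega⟩
    have e2 : r + (b - r) = b := by omega
    simpa [e2] using this
  have hnx : ‖O s‖ = 1 := by simp [hs1]
  have hny : ‖O t‖ = 1 := by simp [ht1]
  have hpx := norm_proj_one hrn hnx (tail s hs hs')
  have hpy := norm_proj_one hrn hny (tail t ht ht')
  have h5 := hO s hs t ht
  have e1 : (WithLp.toLp 2 (fun j : Fin m => H208.Knaster.X n (r + j) (O s)) :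
      EuclideanSpace ℝ (Fin m)) = WithLp.toLp 2 (fun j : Fin m => H208.Knaster.X n (r + j) (O t)) := by
    congr 1
    funext j
    rw [key s hs hs' j, key t ht ht' j]
  simp only [e1] at h5
  have h6 := add_right_cancel h5
  rw [hpx, hpy, inv_one, one_smul, one_smul, one_smul, one_smul] at h6
  rcases (hg _ (mem_sphere_zero_iff_norm.2 hpx) _ (mem_sphere_zero_iff_norm.2 hpy)).1 h6 with h | h
  · have := eq_of_coords hrn hnx hny (tail s hs hs') (proj_eq h)
    exact h1 (O.injective this).symm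
  · rw [← proj_neg] at h
    have := eq_of_coords hrn hnx (by rw [norm_neg]; exact hny) (tail s hs hs') (proj_eq h)
    rw [← map_neg] at this
    have h7 := O.injective this
    exact h2 (by rw [h7, neg_neg])

end H208.Knaster
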