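import Pool.Agent.H208.Knaster.Antipodal

namespace H208.Knaster

open Filter Topology Polynomial

theorem norm_coords {n : ℕ} (z : E n) :
    ‖z‖ ^ 2 = ∑ b ∈ Finset.range (n + 1), (H208.Knaster.X n b z) ^ 2 := by
  rw [EuclideanSpace.real_norm_sq_eq, Finset.sum_range]
  refine Finset.sum_congr rfl (fun i _ => ?_)
  rw [X_apply]

theorem eq_of_coords {n r : ℕ} (hrn : r ≤ n + 1) {x y : E n} (hx : ‖x‖ = 1) (hy : ‖y‖ = 1)
    (hx0 : ∀ b, r ≤ b → b < n + 1 → H208.Knaster.X n b x = 0)
    (h : ∀ b, b < r → H208.Knaster.X n b x = H208.Knaster.X n b y) : x = y := by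
  have hsplit : ∀ z : E n, ‖z‖ ^ 2 = ∑ b ∈ Finset.range r, (H208.Knaster.X n b z) ^ 2 +
      ∑ b ∈ Finset.Ico r (n + 1), (H208.Knaster.X n b z) ^ 2 := by
    intro z
    rw [norm_coords z, Finset.sum_range_add_sum_Ico _ hrn]
  have hytail : ∑ b ∈ Finset.Ico r (n + 1), (H208.Knaster.X n b y) ^ 2 = 0 := by
    have hxs := hsplit x
    have hys := hsplit y
    have hx2 : ∑ b ∈ Finset.Ico r (n + 1), (H208.Knaster.X n b x) ^ 2 = 0 := by
      refine Finset.sum_eq_zero (fun b hb => ?_)
      rw [Finset.mem_Ico] at hb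
      rw [hx0 b hb.1 hb.2]
      simp
    have hxy : ∑ b ∈ Finset.range r, (H208.Knaster.X n b x) ^ 2 =
        ∑ b ∈ Finset.range r, (H208.Knaster.X n b y) ^ 2 :=
      Finset.sum_congr rfl (fun b hb => by rw [h b (Finset.mem_range.1 hb)])
    rw [hx] at hxs
    rw [hy] at hys
    linarith
  have hy0 : ∀ b, r ≤ b → b < n + 1 → H208.Knaster.X n b y = 0 := by
    intro b hrb hb
    have h3 := (Finset.sum_eq_zero_iff_of_nonneg (fun b _ => sq_nonneg _)).1 hytail b
      (Finset.mem_Ico.2 ⟨hrb, hb⟩)
    exact pow_eq_zero_iff (two_ne_zero) |>.1 h3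
  apply sub_eq_zero.1
  apply ext_X
  intro b hb
  rw [map_sub]
  by_cases hbr : b < r
  · rw [h b hbr, sub_self]
  · rw [hx0 b (by omega) hb, hy0 b (by omega) hb, sub_self]

/-- Abstract form: an even map `q` separating the points of the small sphere. -/
theorem antipodal_abstract {n m r : ℕ} (hr : n + 1 = m + r)
    (q : Fin m → E n → ℝ) (hqc : ∀ j, Continuous (q j)) (hqneg : ∀ j x, q j (-x) = q j x)
    (hsep : ∀ x y : E n, ‖x‖ = 1 → ‖y‖ = 1 →
      (∀ b, r ≤ b → b < n + 1 → H208.Knaster.X n b x = 0) → (∀ j, q j x = q j y) →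
        x = y ∨ x = -y)
    {S : Finset (E n)} {s t : E n} (hs1 : ‖s‖ = 1) (ht1 : ‖t‖ = 1)
    (hs : s ∈ S) (hs' : -s ∈ S) (ht : t ∈ S) (h1 : t ≠ s) (h2 : t ≠ -s) :
    ¬ KnasterProperty n m S := by
  classical
  intro hK
  have hN : ∀ N : ℕ, ∃ O : E n ≃ₗᵢ[ℝ] E n, ∀ u ∈ S, ∀ v ∈ S, ∀ j : Fin m,
      q j (O u) + (1 / ((N : ℝ) + 1)) * H208.Knaster.X n (r + j) (O u) =
        q j (O v) + (1 / ((N : ℝ) + 1)) * H208.Knaster.X n (r + j) (O v) := by
    intro N
    obtain ⟨O, _, hO⟩ := hK
      (fun x => WithLp.toLp 2 (fun j : Fin m => q j x +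
        (1 / ((N : ℝ) + 1)) * H208.Knaster.X n (r + j) x)) (by
        apply Continuous.continuousOn
        refine (PiLp.continuous_toLp 2 _).comp ?_
        refine continuous_pi (fun j => ?_)
        have := hqc j
        fun_prop)
    refine ⟨O, fun u hu v hv j => ?_⟩
    have := hO u hu v hv
    have h2 := congrArg (fun w : EuclideanSpace ℝ (Fin m) => w j) this
    simpa using h2
  choose O hO using hN
  have hxz : ∀ N : ℕ, ∀ j : Fin m, H208.Knaster.X n (r + j) (O N s) = 0 := by
    intro N j
    have h3 := hO N s hs (-s) hs' j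
    rw [map_neg, hqneg, map_neg] at h3
    have hpos : (0 : ℝ) < 1 / ((N : ℝ) + 1) := by positivity
    have h4 : (1 / ((N : ℝ) + 1)) * H208.Knaster.X n (r + j) (O N s) = 0 := by linarith
    exact (mul_eq_zero.1 h4).resolve_left hpos.ne'
  let Y : ℕ → E n × E n := fun N => (O N s, O N t)
  have hball : ∀ N, Y N ∈ Metric.closedBall (0 : E n × E n) 1 := by
    intro N
    rw [mem_closedBall_zero_iff, Prod.norm_def]
    simp [Y, hs1, ht1]
  obtain ⟨⟨x, y⟩, _, φ, hφ, hlim⟩ :=
    (isCompact_closedBall (0 : E n × E n) 1).tendsto_subseq hball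
  have hlx : Tendsto (fun k => O (φ k) s) atTop (𝓝 x) :=
    (continuous_fst.tendsto _).comp hlim
  have hly : Tendsto (fun k => O (φ k) t) atTop (𝓝 y) :=
    (continuous_snd.tendsto _).comp hlim
  have hzero : Tendsto (fun k => (1 / ((φ k : ℝ) + 1))) atTop (𝓝 0) :=
    tendsto_one_div_add_atTop_nhds_zero_nat.comp hφ.tendsto_atTop
  have hnx : ‖x‖ = 1 := by
    have := hlx.norm
    have e : (fun k => ‖O (φ k) s‖) = fun _ => (1 : ℝ) := by
      funext k; simp [hs1]
    rw [e] at this
    exact (tendsto_nhds_unique this tendsto_const_nhds)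
  have hny : ‖y‖ = 1 := by
    have := hly.norm
    have e : (fun k => ‖O (φ k) t‖) = fun _ => (1 : ℝ) := by
      funext k; simp [ht1]
    rw [e] at this
    exact (tendsto_nhds_unique this tendsto_const_nhds)
  have hin : inner ℝ x y = inner ℝ s t := by
    have := hlx.inner (𝕜 := ℝ) hly
    have e : (fun k => inner ℝ (O (φ k) s) (O (φ k) t)) = fun _ => inner ℝ s t := by
      funext k
      exact (O (φ k)).inner_map_map s t
    rw [e] at this
    exact (tendsto_nhds_unique this tendsto_const_nhds)
  have hx0 : ∀ b, r ≤ b → b < n + 1 → H208.Knaster.X n b x = 0 := by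
    intro b hrb hb
    have h3 : Tendsto (fun k => H208.Knaster.X n b (O (φ k) s)) atTop
        (𝓝 (H208.Knaster.X n b x)) :=
      (((H208.Knaster.X n b).continuous).tendsto _).comp hlx
    have e : (fun k => H208.Knaster.X n b (O (φ k) s)) = fun _ => (0 : ℝ) := by
      funext k
      have := hxz (φ k) ⟨b - r, by omega⟩
      have e2 : r + (b - r) = b := by omega
      simpa [e2] using this
    rw [e] at h3
    exact (tendsto_nhds_unique h3 tendsto_const_nhds)
  have hqeq : ∀ k, q k x = q k y := by
    intro k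
    have h3 : Tendsto (fun i => q k (O (φ i) s) - q k (O (φ i) t)) atTop
        (𝓝 (q k x - q k y)) :=
      (((hqc k).tendsto _).comp hlx).sub (((hqc k).tendsto _).comp hly)
    have h4 : Tendsto (fun i => (1 / ((φ i : ℝ) + 1)) *
        (H208.Knaster.X n (r + k) (O (φ i) t) - H208.Knaster.X n (r + k) (O (φ i) s))) atTop
        (𝓝 (0 * (H208.Knaster.X n (r + k) y - H208.Knaster.X n (r + k) x))) :=
      hzero.mul (((((H208.Knaster.X n (r + k)).continuous).tendsto _).comp hly).sub
        ((((H208.Knaster.X n (r + k)).continuous).tendsto _).comp hlx))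
    have e : (fun i => q k (O (φ i) s) - q k (O (φ i) t)) =
        (fun i => (1 / ((φ i : ℝ) + 1)) *
        (H208.Knaster.X n (r + k) (O (φ i) t) - H208.Knaster.X n (r + k) (O (φ i) s))) := by
      funext i
      have := hO (φ i) s hs t ht k
      linarith
    rw [e] at h3
    have := tendsto_nhds_unique h3 h4
    linarith
  rcases hsep x y hnx hny hx0 hqeq with hxy | hxy
  · rw [← hxy, real_inner_self_eq_norm_sq, hnx] at hin
    have : inner ℝ s t = ‖s‖ * ‖t‖ := by rw [← hin, hs1, ht1]; norm_num
    rw [inner_eq_norm_mul_iff_real, hs1, ht1, one_smul, one_smul] at this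
    exact h1 this.symm
  · rw [hxy, inner_neg_left, real_inner_self_eq_norm_sq, hny] at hin
    have : inner ℝ (-s) t = ‖-s‖ * ‖t‖ := by
      rw [inner_neg_left, ← hin, norm_neg, hs1, ht1]; norm_num
    rw [inner_eq_norm_mul_iff_real, norm_neg, hs1, ht1, one_smul, one_smul] at this
    exact h2 this.symm

/-- complex coordinates -/
noncomputable def Z (n p a : ℕ) (x : E n) : ℂ :=
  if a < p then (⟨H208.Knaster.X n (2 * a) x, H208.Knaster.X n (2 * a + 1) x⟩ : ℂ) else 0

theorem continuous_Z (n p a : ℕ) : Continuous (Z n p a) := by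
  unfold Z
  by_cases h : a < p
  · simp only [h, if_true]
    have h1 := (H208.Knaster.X n (2 * a)).continuous
    have h2 := (H208.Knaster.X n (2 * a + 1)).continuous
    have : (fun x : E n => (⟨H208.Knaster.X n (2 * a) x, H208.Knaster.X n (2 * a + 1) x⟩ : ℂ)) =
        fun x => ((H208.Knaster.X n (2 * a) x : ℝ) : ℂ) +
          ((H208.Knaster.X n (2 * a + 1) x : ℝ) : ℂ) * Complex.I := by
      funext x
      apply Complex.ext <;> simp
    rw [this]
    exact (Complex.continuous_ofReal.comp h1).add
      ((Complex.continuous_ofReal.comp h2).mul continuous_const)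
  · simp only [h, if_false]
    exact continuous_const

/-- Even `r = 2 p`: complex polynomials of degree `< p`. -/
theorem antipodal_even {n m p : ℕ} (hr : n + 1 = m + 2 * p) (hp : 1 ≤ p) (hm : 4 * p ≤ m + 2)
    {S : Finset (E n)} {s t : E n} (hs1 : ‖s‖ = 1) (ht1 : ‖t‖ = 1)
    (hs : s ∈ S) (hs' : -s ∈ S) (ht : t ∈ S) (h1 : t ≠ s) (h2 : t ≠ -s) :
    ¬ KnasterProperty n m S := by
  classical
  let c : ℕ → E n → ℂ := fun k x => ∑ a ∈ Finset.range (k + 1), Z n p a x * Z n p (k - a) x
  have hcc : ∀ k, Continuous (c k) := fun k =>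
    continuous_finsetSum _ (fun a _ => (continuous_Z n p a).mul (continuous_Z n p (k - a)))
  have hZneg : ∀ a x, Z n p a (-x) = - Z n p a x := by
    intro a x
    unfold Z
    by_cases h : a < p
    · simp only [h, if_true, map_neg]
      apply Complex.ext <;> simp
    · simp [h]
  have hcneg : ∀ k x, c k (-x) = c k x := by
    intro k x
    refine Finset.sum_congr rfl (fun a _ => ?_)
    rw [hZneg, hZneg]
    ring
  let q : Fin m → E n → ℝ := fun j x =>
    if (j : ℕ) % 2 = 0 then (c ((j : ℕ) / 2) x).re else (c ((j : ℕ) / 2) x).im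
  refine antipodal_abstract (r := 2 * p) hr q ?_ ?_ ?_ hs1 ht1 hs hs' ht h1 h2
  · intro j
    by_cases h : (j : ℕ) % 2 = 0
    · simp only [q, h, if_true]
      exact Complex.continuous_re.comp (hcc _)
    · simp only [q, h, if_false]
      exact Complex.continuous_im.comp (hcc _)
  · intro j x
    simp only [q, hcneg]
  · intro x y hx hy hx0 hq
    have hceq : ∀ k, c k x = c k y := by
      intro k
      by_cases hk : k < 2 * p - 1
      · apply Complex.ext
        · have := hq ⟨2 * k, by omega⟩
          have e1 : (2 * k) % 2 = 0 := by omega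
          have e2 : (2 * k) / 2 = k := by omega
          simpa only [q, e1, e2, if_true] using this
        · have := hq ⟨2 * k + 1, by omega⟩
          have e1 : ¬ ((2 * k + 1) % 2 = 0) := by omega
          have e2 : (2 * k + 1) / 2 = k := by omega
          simpa only [q, e1, e2, if_false] using this
      · have hz : ∀ z, c k z = 0 := by
          intro z
          refine Finset.sum_eq_zero (fun a ha => ?_)
          have ha' := Finset.mem_range.1 ha
          have : ¬ a < p ∨ ¬ (k - a) < p := by omega
          rcases this with h | h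
          · simp [Z, h]
          · simp [Z, h]
        rw [hz, hz]
    let R : E n → ℂ[X] := fun z => ∑ a ∈ Finset.range p, Polynomial.monomial a (Z n p a z)
    have hRc : ∀ z b, (R z).coeff b = Z n p b z := by
      intro z b
      simp only [R, Polynomial.finsetSum_coeff, Polynomial.coeff_monomial]
      by_cases hb : b < p
      · rw [Finset.sum_eq_single_of_mem b (Finset.mem_range.2 hb)]
        · simp
        · intro a _ hab
          simp [hab]
      · rw [Finset.sum_eq_zero]
        · simp [Z, hb]
        · intro a ha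
          rw [if_neg]
          rintro rfl
          exact hb (Finset.mem_range.1 ha)
    have hsq : (R x) ^ 2 = (R y) ^ 2 := by
      ext k
      rw [sq, sq, Polynomial.coeff_mul, Polynomial.coeff_mul,
        Finset.Nat.sum_antidiagonal_eq_sum_range_succ
          (fun i j => (R x).coeff i * (R x).coeff j) k,
        Finset.Nat.sum_antidiagonal_eq_sum_range_succ
          (fun i j => (R y).coeff i * (R y).coeff j) k]
      simp only [hRc]
      exact hceq k
    have hcoord : ∀ z w : E n, R z = R w → ∀ b, b < 2 * p →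
        H208.Knaster.X n b z = H208.Knaster.X n b w := by
      intro z w hzw b hb
      have h5 := congrArg (fun P => P.coeff (b / 2)) hzw
      simp only [hRc] at h5
      have hb2 : b / 2 < p := by omega
      simp only [Z, hb2, if_true] at h5
      rw [Complex.ext_iff] at h5
      simp only at h5
      rcases Nat.mod_two_eq_zero_or_one b with h6 | h6
      · have e : 2 * (b / 2) = b := by omega
        rw [e] at h5
        exact h5.1
      · have e : 2 * (b / 2) + 1 = b := by omega
        rw [e] at h5
        exact h5.2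
    rcases sq_eq_sq_iff_eq_or_eq_neg.1 hsq with h | h
    · left
      exact eq_of_coords (by omega) hx hy hx0 (hcoord x y h)
    · right
      have h' : R x = R (-y) := by
        rw [h]
        ext b
        rw [Polynomial.coeff_neg, hRc, hRc, hZneg]
      exact eq_of_coords (by omega) hx (by rw [norm_neg]; exact hy) hx0 (hcoord x (-y) h')

end H208.Knaster
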