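import Pool.Agent.H208.Knaster.Concyclic

namespace H208.Knaster

theorem exists_circuit {n : ℕ} (S : Finset (E n)) (h : ¬ AffineIndependent ℝ ((↑) : S → E n)) :
    ∃ T ⊆ S, IsCircuit T := by
  classical
  induction S using Finset.strongInduction with
  | H S ih =>
    by_cases hall : ∀ T' : Finset (E n), T' ⊂ S → AffineIndependent ℝ ((↑) : T' → E n)
    · exact ⟨S, subset_rfl, h, hall⟩
    · push Not at hall
      obtain ⟨T', hT', hdep⟩ := hall
      obtain ⟨T, hT, hc⟩ := ih T' hT' hdep
      exact ⟨T, hT.trans hT'.subset, hc⟩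

theorem small_indep {n : ℕ} {T : Finset (E n)} (hT1 : ∀ s ∈ T, ‖s‖ = 1) (h : T.card ≤ 3) :
    AffineIndependent ℝ ((↑) : T → E n) := by
  classical
  by_cases h3 : T.card = 3
  · let e := T.equivFinOfCardEq h3
    rw [← affineIndependent_equiv e.symm]
    have hc : EuclideanGeometry.Cospherical (T : Set (E n)) := by
      refine ⟨0, 1, fun p hp => ?_⟩
      rw [dist_zero_right]
      exact hT1 p hp
    refine hc.affineIndependent ?_ ?_
    · rintro _ ⟨i, rfl⟩
      exact (e.symm i).2
    · exact Subtype.val_injective.comp e.symm.injective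
  · by_contra hdep
    obtain ⟨T', hT', hc⟩ := exists_circuit T hdep
    obtain ⟨c, hc0, hc1, hcne, -⟩ := circuit_dep hc
    have hle : T'.card ≤ 2 := by
      have := Finset.card_le_card hT'
      omega
    interval_cases hk : T'.card
    · rw [Finset.card_eq_zero] at hk
      subst hk
      exact hc.1 (affineIndependent_of_subsingleton ℝ _)
    · obtain ⟨a, rfl⟩ := Finset.card_eq_one.1 hk
      rw [Finset.sum_singleton] at hc0
      exact hcne a (by simp) hc0
    · obtain ⟨a, b, hab, rfl⟩ := Finset.card_eq_two.1 hk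
      rw [Finset.sum_pair hab] at hc0 hc1
      have : c a • (a - b) = 0 := by
        have e : c b = - c a := by linarith
        rw [e, neg_smul, ← sub_eq_add_neg, ← smul_sub] at hc1
        exact hc1
      rcases smul_eq_zero.1 this with h | h
      · exact hcne a (by simp) h
      · exact hab (sub_eq_zero.1 h)

theorem four_dep_circuit {n : ℕ} {T : Finset (E n)} (hT1 : ∀ s ∈ T, ‖s‖ = 1) (h : T.card = 4)
    (hdep : ¬ AffineIndependent ℝ ((↑) : T → E n)) : IsCircuit T := by
  refine ⟨hdep, fun T' hT' => small_indep (fun s hs => hT1 s (hT'.subset hs)) ?_⟩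
  have := Finset.card_lt_card hT'
  omega

theorem necessary {n m : ℕ} {S : Finset (E n)} (hS : ∀ s ∈ S, ‖s‖ = 1)
    (hnm : 2 * n ≤ 3 * m)
    (hm : (n + 1 - m) * (n + 2 - m) ≤ 2 * m + 6) (hK : KnasterProperty n m S) :
    AffineIndependent ℝ ((↑) : S → E n) ∧ S.card ≤ (n + 1 - m) + 1 := by
  classical
  have hind : AffineIndependent ℝ ((↑) : S → E n) := by
    by_contra hdep
    obtain ⟨T, hTS, hc⟩ := exists_circuit S hdep
    have hT1 : ∀ s ∈ T, ‖s‖ = 1 := fun s hs => hS s (hTS hs)
    have hcard : 4 ≤ T.card := by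
      by_contra hlt
      exact hc.1 (small_indep hT1 (by omega))
    rcases Nat.eq_or_lt_of_le hcard with h4 | h5
    · exact four_fail hT1 h4.symm hc hnm (hK.mono hTS)
    · obtain ⟨d, hd⟩ : ∃ d, T.card = d + 2 := ⟨T.card - 2, by omega⟩
      refine circuit_fail hT1 hd hc ?_ (hK.mono hTS)
      have h2 : 3 ≤ d := by omega
      have h3 : 3 * 2 ≤ d * (d - 1) := Nat.mul_le_mul h2 (by omega)
      omega
  exact ⟨hind, card_le hS hind hK⟩

end H208.Knaster
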