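import Pool.Agent.H208.Knaster.Main

namespace H208.Knaster

theorem sum2 (e r : ℕ) (h : 2 * e ≤ r + 1) (hr : 1 ≤ r) :
    ∑ l ∈ Finset.range e, (2 * r - 1 - 2 * l - 2 * l) = e * (2 * r + 1 - 2 * e) := by
  induction e with
  | zero => simp
  | succ e ih =>
    rw [Finset.sum_range_succ, ih (by omega)]
    obtain ⟨k, hk⟩ : ∃ k, r = 2 * e + 1 + k := ⟨r - (2 * e + 1), by omega⟩
    subst hk
    have e1 : 2 * (2 * e + 1 + k) + 1 - 2 * e = 2 * e + 2 * k + 3 := by omega
    have e2 : 2 * (2 * e + 1 + k) - 1 - 2 * e - 2 * e = 2 * k + 1 := by omega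
    have e3 : 2 * (2 * e + 1 + k) + 1 - 2 * (e + 1) = 2 * e + 2 * k + 1 := by omega
    rw [e1, e2, e3]
    ring

/-- the index pairs `(l, s)`: `l < e`, `2 l ≤ s ≤ 2 r - 2 - 2 l`, without `(0, 0)`. -/
def pairs2 (e r : ℕ) : Finset (Σ _ : ℕ, ℕ) :=
  ((Finset.range e).sigma (fun l => Finset.Ico (2 * l) (2 * r - 1 - 2 * l))).erase ⟨0, 0⟩

theorem card_pairs2 (e r : ℕ) (h : 2 * e ≤ r + 1) (he : 1 ≤ e) :
    (pairs2 e r).card + 1 = e * (2 * r + 1 - 2 * e) := by
  have hr : 1 ≤ r := by omega
  unfold pairs2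
  have hmem : (⟨0, 0⟩ : Σ _ : ℕ, ℕ) ∈
      ((Finset.range e).sigma (fun l => Finset.Ico (2 * l) (2 * r - 1 - 2 * l))) := by
    simp
    omega
  rw [Finset.card_erase_add_one hmem, Finset.card_sigma]
  simp only [Nat.card_Ico]
  exact sum2 e r h hr

/-- a symmetric measure on `{0, …, N}` with at most `2 p` atoms whose first `p` even central
moments vanish is zero -/
theorem moment {N p : ℕ} {τ : ℕ → ℝ} (hsym : ∀ a ≤ N, τ (N - a) = τ a)
    (hm : ∀ l < p, ∑ a ∈ Finset.range (N + 1), τ a * (2 * (a : ℝ) - N) ^ (2 * l) = 0)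
    (hA : ((Finset.range (N + 1)).filter (fun a => τ a ≠ 0)).card ≤ 2 * p) :
    ∀ a ≤ N, τ a = 0 := by
  classical
  set A := (Finset.range (N + 1)).filter (fun a => τ a ≠ 0) with hAdef
  have hodd : ∀ l, ∑ a ∈ Finset.range (N + 1), τ a * (2 * (a : ℝ) - N) ^ (2 * l + 1) = 0 := by
    intro l
    have h1 := Finset.sum_range_reflect (fun a => τ a * (2 * (a : ℝ) - N) ^ (2 * l + 1)) (N + 1)
    have h2 : ∀ a ∈ Finset.range (N + 1),
        τ (N + 1 - 1 - a) * (2 * ((N + 1 - 1 - a : ℕ) : ℝ) - N) ^ (2 * l + 1) =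
          - (τ a * (2 * (a : ℝ) - N) ^ (2 * l + 1)) := by
      intro a ha
      have haN : a ≤ N := by
        have := Finset.mem_range.1 ha
        omega
      have e1 : N + 1 - 1 - a = N - a := by omega
      rw [e1, hsym a haN, Nat.cast_sub haN]
      have e2 : 2 * ((N : ℝ) - a) - N = - (2 * (a : ℝ) - N) := by ring
      rw [e2, Odd.neg_pow ⟨l, rfl⟩]
      ring
    rw [Finset.sum_congr rfl h2, Finset.sum_neg_distrib] at h1
    linarith
  have hall : ∀ j < 2 * p, ∑ a ∈ Finset.range (N + 1), τ a * (2 * (a : ℝ) - N) ^ j = 0 := by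
    intro j hj
    rcases Nat.even_or_odd' j with ⟨l, rfl | rfl⟩
    · exact hm l (by omega)
    · exact hodd l
  by_contra hcon
  push Not at hcon
  obtain ⟨a0, ha0, hτ⟩ := hcon
  have ha0A : a0 ∈ A := by
    rw [hAdef, Finset.mem_filter, Finset.mem_range]
    exact ⟨by omega, hτ⟩
  let φ : Polynomial ℝ := ∏ a ∈ A.erase a0, (Polynomial.X - Polynomial.C (2 * (a : ℝ) - N))
  have hdeg : φ.natDegree < 2 * p := by
    have h1 : φ.natDegree = (A.erase a0).card := by
      have := Polynomial.natDegree_finsetProd_X_sub_C_eq_card (A.erase a0)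
        (fun a : ℕ => 2 * (a : ℝ) - N)
      exact this
    have h2 := Finset.card_erase_add_one ha0A
    omega
  have hzero : ∑ a ∈ Finset.range (N + 1), τ a * φ.eval (2 * (a : ℝ) - N) = 0 := by
    have h1 : ∀ a ∈ Finset.range (N + 1), τ a * φ.eval (2 * (a : ℝ) - N) =
        ∑ j ∈ Finset.range (2 * p), φ.coeff j * (τ a * (2 * (a : ℝ) - N) ^ j) := by
      intro a _
      rw [Polynomial.eval_eq_sum_range' hdeg, Finset.mul_sum]
      refine Finset.sum_congr rfl (fun j _ => by ring)
    rw [Finset.sum_congr rfl h1, Finset.sum_comm]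
    refine Finset.sum_eq_zero (fun j hj => ?_)
    rw [← Finset.mul_sum, hall j (Finset.mem_range.1 hj), mul_zero]
  rw [Finset.sum_eq_single_of_mem a0 (Finset.mem_range.2 (by omega))] at hzero
  · rcases mul_eq_zero.1 hzero with h | h
    · exact hτ h
    · rw [Polynomial.eval_prod, Finset.prod_eq_zero_iff] at h
      obtain ⟨a, ha, h⟩ := h
      rw [Polynomial.eval_sub, Polynomial.eval_X, Polynomial.eval_C] at h
      have hne := (Finset.mem_erase.1 ha).1
      apply hne
      have : (a : ℝ) = a0 := by linarith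
      exact_mod_cast this
  · intro a ha hne
    by_cases hτa : τ a = 0
    · rw [hτa, zero_mul]
    · have haA : a ∈ A.erase a0 := by
        rw [Finset.mem_erase]
        refine ⟨hne, ?_⟩
        rw [hAdef, Finset.mem_filter]
        exact ⟨ha, hτa⟩
      have : φ.eval (2 * (a : ℝ) - N) = 0 := by
        rw [Polynomial.eval_prod]
        apply Finset.prod_eq_zero haA
        simp
      rw [this, mul_zero]

/-- Small affinely dependent sets. -/
theorem small_fail {n m e : ℕ} {T : Finset (E n)} (hT1 : ∀ s ∈ T, ‖s‖ = 1)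
    (hcard : T.card ≤ 2 * e + 2) (hT : IsCircuit T) (he : 1 ≤ e)
    (h2e : 2 * e ≤ n + 2 - m)
    (hm : e * (2 * (n + 1 - m) + 1 - 2 * e) ≤ m + 1) : ¬ KnasterProperty n m T := by
  classical
  intro hK
  obtain ⟨r, hr⟩ : ∃ r, r = n + 1 - m := ⟨_, rfl⟩
  have her : 2 * e ≤ r + 1 := by omega
  have hr1 : 1 ≤ r := by omega
  have hrn : r ≤ n + 1 := by omega
  have hcard4 : 4 ≤ T.card := by
    by_contra hlt
    exact hT.1 (small_indep hT1 (by omega))
  let W : ℕ → E n → ℝ := fun b x => if b < r then X n b x else 0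
  have hW : ∀ b, Continuous (W b) := by
    intro b
    by_cases hb : b < r
    · simp only [W, hb, if_true]
      exact (X n b).continuous
    · simp only [W, hb, if_false]
      exact continuous_const
  have hPc : (pairs2 e r).card ≤ m := by
    have := card_pairs2 e r her he
    rw [← hr] at hm
    omega
  obtain ⟨g, hg⟩ := exists_cover (pairs2 e r) hPc
  obtain ⟨y, hy1, hy2, hy3⟩ := limit_lemma hT1 hK (fun j => X n (r + j))
    (fun j x => ∑ a ∈ Finset.range ((g j).2 + 1),
      (2 * (a : ℝ) - ((g j).2 : ℝ)) ^ (2 * (g j).1) * (W a x * W ((g j).2 - a) x)) (fun j => by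
      refine continuous_finsetSum _ (fun a _ => continuous_const.mul ((hW _).mul (hW _))))
  obtain ⟨c, hc0, hc1, hcne, hcdep⟩ := circuit_dep hT
  have hc1' : ∑ s ∈ T, c s • y s = 0 := (lin_rel hy1 c).2 hc1
  have hcoord2 : ∀ b, b < n + 1 → r ≤ b → ∀ s ∈ T, ∀ t ∈ T,
      X n b (y s) = X n b (y t) := by
    intro b hb hrb s hs t ht
    have hbm : b - r < m := by omega
    have := hy2 ⟨b - r, hbm⟩ s hs t ht
    have e : r + (b - r) = b := by omega
    simpa [e] using this
  obtain ⟨s0, hs0⟩ : ∃ s0, s0 ∈ T := by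
    have : 0 < T.card := by omega
    obtain ⟨s0, h⟩ := Finset.card_pos.1 this
    exact ⟨s0, h⟩
  -- the matrix
  let M : ℕ → ℕ → ℝ := fun a b => ∑ s ∈ T, c s * (W a (y s) * W b (y s))
  have hMsym : ∀ a b, M a b = M b a := by
    intro a b
    refine Finset.sum_congr rfl (fun s _ => by ring)
  have hMout : ∀ a b, (r ≤ a ∨ r ≤ b) → M a b = 0 := by
    intro a b h
    refine Finset.sum_eq_zero (fun s _ => ?_)
    rcases h with h | h
    · simp [W, not_lt.2 h]
    · simp [W, not_lt.2 h]
  have hlinW : ∀ a, ∑ s ∈ T, c s * W a (y s) = 0 := by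
    intro a
    by_cases ha : a < r
    · simp only [W, ha, if_true]
      have := congrArg (X n a) hc1'
      simpa [map_sum] using this
    · simp [W, ha]
  -- M is not zero
  have hMne : ∃ a b, a < r ∧ b < r ∧ M a b ≠ 0 := by
    by_contra hcon
    push Not at hcon
    have hcoord1 : ∀ a, a < r → ∀ s ∈ T, ∀ t ∈ T, X n a (y s) = X n a (y t) := by
      intro a ha
      have h0 : ∑ s ∈ T, c s * X n a (y s) = 0 := by
        have := hlinW a
        simpa [W, ha] using this
      have h1 : ∑ s ∈ T, (c s * X n a (y s)) • y s = 0 := by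
        apply ext_X
        intro b hb
        rw [map_sum]
        simp only [map_smul, smul_eq_mul]
        by_cases hbr : b < r
        · have := hcon a b ha hbr
          simp only [M, W, ha, hbr, if_true] at this
          rw [← this]
          refine Finset.sum_congr rfl (fun s _ => by ring)
        · have : ∀ s ∈ T, c s * X n a (y s) * X n b (y s) =
              c s * X n a (y s) * X n b (y s0) := by
            intro s hs
            rw [hcoord2 b hb (by omega) s hs s0 hs0]
          rw [Finset.sum_congr rfl this, ← Finset.sum_mul, h0, zero_mul]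
      obtain ⟨α, hα⟩ := hcdep (fun s => c s * X n a (y s)) h0 ((lin_rel hy1 _).1 h1)
      intro s hs t ht
      have e1 := hα s hs
      have e2 := hα t ht
      rw [mul_comm α] at e1 e2
      rw [mul_left_cancel₀ (hcne s hs) e1, mul_left_cancel₀ (hcne t ht) e2]
    have hsub : T.erase s0 ⊂ T := Finset.erase_ssubset hs0
    have hmem : ∀ s ∈ T.erase s0, s ∈ T := fun s hs => Finset.mem_of_mem_erase hs
    have hb := card_bound (q := r) (r := r) (y := y)
      (fun s hs t ht => hy1 s (hmem s hs) t (hmem t ht)) (hT.2 _ hsub)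
      (fun a ha hqa s hs t ht => by
        rcases hqa with h | h
        · exact hcoord1 a h s (hmem s hs) t (hmem t ht)
        · exact hcoord2 a ha h s (hmem s hs) t (hmem t ht))
    rw [Finset.card_erase_of_mem hs0] at hb
    omega
  -- trace zero
  have htrace : ∑ b ∈ Finset.range r, M b b = 0 := by
    have hsq : ∀ s ∈ T, ∑ b ∈ Finset.range (n + 1), (X n b (y s)) ^ 2 = 1 := by
      intro s hs
      have h1 : ‖y s‖ ^ 2 = 1 := by
        rw [← real_inner_self_eq_norm_sq, hy1 s hs s hs, real_inner_self_eq_norm_sq, hT1 s hs]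
        norm_num
      rw [EuclideanSpace.real_norm_sq_eq] at h1
      rw [← h1, Finset.sum_range]
      refine Finset.sum_congr rfl (fun i _ => ?_)
      rw [X_apply]
    have h2 : ∑ b ∈ Finset.range (n + 1), ∑ s ∈ T, c s * (X n b (y s)) ^ 2 = 0 := by
      rw [Finset.sum_comm]
      have : ∀ s ∈ T, ∑ b ∈ Finset.range (n + 1), c s * (X n b (y s)) ^ 2 = c s := by
        intro s hs
        rw [← Finset.mul_sum, hsq s hs, mul_one]
      rw [Finset.sum_congr rfl this, hc0]
    have h3 : ∑ b ∈ Finset.range r, ∑ s ∈ T, c s * (X n b (y s)) ^ 2 = 0 := by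
      rw [← h2]
      refine Finset.sum_subset (by
        intro b hb
        simp only [Finset.mem_range] at hb ⊢
        omega) (fun b hb hbr => ?_)
      simp only [Finset.mem_range] at hb hbr
      have : ∀ s ∈ T, c s * (X n b (y s)) ^ 2 = c s * (X n b (y s0)) ^ 2 := by
        intro s hs
        rw [hcoord2 b hb (by omega) s hs s0 hs0]
      rw [Finset.sum_congr rfl this, ← Finset.sum_mul, hc0, zero_mul]
    rw [← h3]
    refine Finset.sum_congr rfl (fun b hb => ?_)
    have hb' := Finset.mem_range.1 hb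
    simp only [M, W, hb', if_true]
    refine Finset.sum_congr rfl (fun s _ => by ring)
  -- top antidiagonal
  obtain ⟨a0, b0, ha0, hb0, hM0⟩ := hMne
  let D : Finset (ℕ × ℕ) := ((Finset.range r) ×ˢ (Finset.range r)).filter (fun p => M p.1 p.2 ≠ 0)
  have hD : D.Nonempty := ⟨(a0, b0), by simp [D, ha0, hb0, hM0]⟩
  obtain ⟨⟨a1, b1⟩, hab1, hmax⟩ := D.exists_max_image (fun p => p.1 + p.2) hD
  simp only [D, Finset.mem_filter, Finset.mem_product, Finset.mem_range] at hab1 hmax
  obtain ⟨⟨ha1, hb1⟩, hM1⟩ := hab1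
  obtain ⟨N, hN⟩ : ∃ N, N = a1 + b1 := ⟨_, rfl⟩
  have htop : ∀ a b, N < a + b → M a b = 0 := by
    intro a b hab
    by_contra hne
    by_cases har : r ≤ a
    · exact hne (hMout a b (Or.inl har))
    · by_cases hbr : r ≤ b
      · exact hne (hMout a b (Or.inr hbr))
      · have := hmax (a, b) ⟨⟨by simpa using har, by simpa using hbr⟩, hne⟩
        simp only at this
        omega
  have hN1 : 1 ≤ N := by
    by_contra h0
    have hN0 : N = 0 := by omega
    have ea : a1 = 0 := by omega
    have eb : b1 = 0 := by omega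
    subst ea
    subst eb
    rw [Finset.sum_eq_single_of_mem 0 (Finset.mem_range.2 hr1)] at htrace
    · exact hM1 htrace
    · intro b _ hb
      exact htop b b (by omega)
  -- the top coefficients
  let τ : ℕ → ℝ := fun a => M a (N - a)
  have hτsym : ∀ a ≤ N, τ (N - a) = τ a := by
    intro a ha
    simp only [τ]
    rw [show N - (N - a) = a by omega]
    exact hMsym _ _
  let A := (Finset.range (N + 1)).filter (fun a => τ a ≠ 0)
  have hAc1 : A.card ≤ N + 1 := by
    have := Finset.card_filter_le (Finset.range (N + 1)) (fun a => τ a ≠ 0)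
    simpa using this
  have hAc2 : A.card ≤ 2 * r - 1 - N := by
    have hsub : A ⊆ Finset.Ico (N + 1 - r) (min r (N + 1)) := by
      intro a ha
      simp only [A, Finset.mem_filter, Finset.mem_range] at ha
      obtain ⟨h1, h2⟩ := ha
      rw [Finset.mem_Ico]
      by_contra hcon
      apply h2
      apply hMout
      omega
    have := Finset.card_le_card hsub
    rw [Nat.card_Ico] at this
    omega
  have hmoment : ∀ l, l < e → 2 * l ≤ N → 2 * l + N ≤ 2 * r - 2 →
      ∑ a ∈ Finset.range (N + 1), τ a * (2 * (a : ℝ) - N) ^ (2 * l) = 0 := by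
    intro l hl h1 h2
    obtain ⟨j, hj⟩ := hg ⟨l, N⟩ (by
      unfold pairs2
      rw [Finset.mem_erase]
      refine ⟨?_, ?_⟩
      · intro heq
        have : N = 0 := by
          have := congrArg Sigma.snd heq
          simpa using this
        omega
      · simp only [Finset.mem_sigma, Finset.mem_range, Finset.mem_Ico]
        omega)
    have h3 := hy3 c hc0 hc1 j
    rw [hj] at h3
    simp only at h3
    rw [← h3]
    simp only [τ, M]
    simp only [Finset.sum_mul, Finset.mul_sum]
    rw [Finset.sum_comm]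
    refine Finset.sum_congr rfl (fun s _ => Finset.sum_congr rfl (fun a _ => by ring))
  have hAbig : 2 * e + 1 ≤ A.card := by
    by_contra hlt
    obtain ⟨p, hp⟩ : ∃ p, p = min e (min (N / 2 + 1) ((2 * r - 2 - N) / 2 + 1)) := ⟨_, rfl⟩
    have hNr : N ≤ 2 * r - 2 := by omega
    have hz := moment (N := N) (p := p) hτsym (fun l hl => hmoment l (by omega) (by omega)
      (by omega)) (by
        change A.card ≤ 2 * p
        omega) a1 (by omega)
    apply hM1
    have : N - a1 = b1 := by omega
    simpa [τ, this] using hz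
  -- linear dependency
  obtain ⟨s1, hs1, hs01⟩ : ∃ s1 ∈ T, s1 ≠ s0 := by
    have : 1 < T.card := by omega
    exact Finset.exists_mem_ne this s0
  let I := (T.erase s0).erase s1
  have hIcard : I.card = T.card - 2 := by
    have h1 : s1 ∈ T.erase s0 := Finset.mem_erase.2 ⟨hs01, hs1⟩
    simp only [I]
    rw [Finset.card_erase_of_mem h1, Finset.card_erase_of_mem hs0]
    omega
  have hMdecomp : ∀ a b, M a b = ∑ s ∈ I, (c s * (W a (y s) - W a (y s0))) *
      (W b (y s) - W b (y s1)) := by
    intro a b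
    have h1 : ∑ s ∈ T, (c s * (W a (y s) - W a (y s0))) * (W b (y s) - W b (y s1)) = M a b := by
      have h2 : ∀ s ∈ T, (c s * (W a (y s) - W a (y s0))) * (W b (y s) - W b (y s1)) =
          c s * (W a (y s) * W b (y s)) - (c s * W a (y s)) * W b (y s1)
            - (c s * W b (y s)) * W a (y s0) + c s * (W a (y s0) * W b (y s1)) := by
        intro s _
        ring
      rw [Finset.sum_congr rfl h2, Finset.sum_add_distrib, Finset.sum_sub_distrib,
        Finset.sum_sub_distrib, ← Finset.sum_mul, ← Finset.sum_mul, ← Finset.sum_mul,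
        hlinW, hlinW, hc0]
      simp [M]
    rw [← h1]
    symm
    refine Finset.sum_subset (fun s hs => Finset.mem_of_mem_erase (Finset.mem_of_mem_erase hs))
      (fun s hs hsI => ?_)
    simp only [I, Finset.mem_erase, not_and] at hsI
    by_cases h5 : s = s1
    · rw [h5]; simp
    · by_cases h6 : s = s0
      · rw [h6]; simp
      · exact absurd hs (hsI h5 h6)
  let v : A → (I → ℝ) := fun a s => c s * (W a (y s) - W a (y s0))
  have hnotli : ¬ LinearIndependent ℝ v := by
    intro hli
    have := hli.fintype_card_le_finrank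
    simp only [Fintype.card_coe, Module.finrank_fintype_fun_eq_card] at this
    omega
  rw [Fintype.not_linearIndependent_iff] at hnotli
  obtain ⟨lam, hlam0, ⟨i0, hi0⟩⟩ := hnotli
  -- minimal index
  let B : Finset A := Finset.univ.filter (fun i => lam i ≠ 0)
  have hB : B.Nonempty := ⟨i0, by simp [B, hi0]⟩
  obtain ⟨i1, hi1, hmin⟩ := B.exists_min_image (fun i => (i : ℕ)) hB
  simp only [B, Finset.mem_filter, Finset.mem_univ, true_and] at hi1 hmin
  have hi1A : (i1 : ℕ) ∈ A := i1.2
  simp only [A, Finset.mem_filter, Finset.mem_range] at hi1A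
  have hsum0 : ∑ i : A, lam i * M i (N - i1) = 0 := by
    have h1 : ∀ i : A, lam i * M i (N - i1) =
        ∑ s : I, lam i * (v i s) * (W (N - i1) (y s) - W (N - i1) (y s1)) := by
      intro i
      rw [hMdecomp, Finset.mul_sum, ← Finset.sum_coe_sort I]
      refine Finset.sum_congr rfl (fun s _ => ?_)
      simp only [v]
      ring
    rw [Finset.sum_congr rfl (fun i _ => h1 i), Finset.sum_comm]
    refine Finset.sum_eq_zero (fun s _ => ?_)
    rw [← Finset.sum_mul]
    have := congrFun hlam0 s
    simp only [Finset.sum_apply, Pi.smul_apply, smul_eq_mul, Pi.zero_apply] at this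
    rw [this, zero_mul]
  rw [Finset.sum_eq_single_of_mem i1 (Finset.mem_univ _)] at hsum0
  · rcases mul_eq_zero.1 hsum0 with h | h
    · exact hi1 h
    · exact hi1A.2 h
  · intro i _ hne
    by_cases hl : lam i = 0
    · rw [hl, zero_mul]
    · have h1 := hmin i hl
      have h2 : (i1 : ℕ) ≠ i := fun h => hne (Subtype.ext h.symm)
      have h3 : (i1 : ℕ) < i := lt_of_le_of_ne h1 h2
      have h4 : N < (i : ℕ) + (N - i1) := by omega
      rw [htop _ _ h4, mul_zero]

end H208.Knaster
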