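import Pool.Agent.H208.Knaster.Embed

namespace H208.Knaster

open Filter Topology Polynomial

/-- coefficients of the square -/
noncomputable def cc (n p k : ℕ) (x : E n) : ℂ :=
  ∑ a ∈ Finset.range (k + 1), Z n p a x * Z n p (k - a) x

/-- real coordinates of the square -/
noncomputable def aa (n p j : ℕ) (x : E n) : ℝ :=
  if j % 2 = 0 then (cc n p (j / 2) x).re else (cc n p (j / 2) x).im

theorem continuous_cc (n p k : ℕ) : Continuous (cc n p k) :=
  continuous_finsetSum _ (fun a _ => (continuous_Z n p a).mul (continuous_Z n p (k - a)))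

theorem continuous_aa (n p j : ℕ) : Continuous (aa n p j) := by
  unfold aa
  by_cases h : j % 2 = 0
  · simp only [h, if_true]
    exact Complex.continuous_re.comp (continuous_cc n p _)
  · simp only [h, if_false]
    exact Complex.continuous_im.comp (continuous_cc n p _)

theorem Z_smul (n p a : ℕ) (μ : ℝ) (x : E n) : Z n p a (μ • x) = (μ : ℂ) * Z n p a x := by
  unfold Z
  by_cases h : a < p
  · simp only [h, if_true, map_smul, smul_eq_mul]
    apply Complex.ext <;> simp
  · simp [h]

theorem Z_neg (n p a : ℕ) (x : E n) : Z n p a (-x) = - Z n p a x := by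
  have := Z_smul n p a (-1) x
  simpa using this

theorem cc_smul (n p k : ℕ) (μ : ℝ) (x : E n) : cc n p k (μ • x) = (μ : ℂ) ^ 2 * cc n p k x := by
  unfold cc
  rw [Finset.mul_sum]
  refine Finset.sum_congr rfl (fun a _ => ?_)
  rw [Z_smul, Z_smul]
  ring

theorem cc_big {n p k : ℕ} (hp : 1 ≤ p) (hk : 2 * p - 1 ≤ k) (x : E n) : cc n p k x = 0 := by
  refine Finset.sum_eq_zero (fun a ha => ?_)
  have ha' := Finset.mem_range.1 ha
  have : ¬ a < p ∨ ¬ (k - a) < p := by omega
  rcases this with h | h
  · simp [Z, h]
  · simp [Z, h]

theorem cc_of_aa {n p k : ℕ} {x y : E n} {l : ℝ} (h0 : aa n p (2 * k) x = l * aa n p (2 * k) y)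
    (h1 : aa n p (2 * k + 1) x = l * aa n p (2 * k + 1) y) : cc n p k x = (l : ℂ) * cc n p k y := by
  have e1 : (2 * k) % 2 = 0 := by omega
  have e2 : (2 * k) / 2 = k := by omega
  have e3 : ¬ ((2 * k + 1) % 2 = 0) := by omega
  have e4 : (2 * k + 1) / 2 = k := by omega
  simp only [aa, e1, e2, if_true] at h0
  simp only [aa, e3, e4, if_false] at h1
  apply Complex.ext
  · simp [h0]
  · simp [h1]

/-- equal squares give equality up to sign -/
theorem eq_or_neg_of_cc {p : ℕ} {n : ℕ} (hn : n + 1 = 2 * p) {x y : E n}
    (h : ∀ k, cc n p k x = cc n p k y) : x = y ∨ x = -y := by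
  let R : E n → ℂ[X] := fun z => ∑ a ∈ Finset.range p, Polynomial.monomial a (Z n p a z)
  have hRc : ∀ z b, (R z).coeff b = Z n p b z := by
    intro z b
    simp only [R, Polynomial.finsetSum_coeff, Polynomial.coeff_monomial]
    by_cases hb : b < p
    · rw [Finset.sum_eq_single_of_mem b (Finset.mem_range.2 hb)]
      · simp
      · intro a _ hab
        simp [hab]
    · rw [Finset.sum_eq_zero]
      · simp [Z, hb]
      · intro a ha
        rw [if_neg]
        rintro rfl
        exact hb (Finset.mem_range.1 ha)
  have hsq : (R x) ^ 2 = (R y) ^ 2 := by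
    ext k
    rw [sq, sq, Polynomial.coeff_mul, Polynomial.coeff_mul,
      Finset.Nat.sum_antidiagonal_eq_sum_range_succ
        (fun i j => (R x).coeff i * (R x).coeff j) k,
      Finset.Nat.sum_antidiagonal_eq_sum_range_succ
        (fun i j => (R y).coeff i * (R y).coeff j) k]
    simp only [hRc]
    exact h k
  have hcoord : ∀ z w : E n, R z = R w → z = w := by
    intro z w hzw
    apply sub_eq_zero.1
    apply ext_X
    intro b hb
    rw [map_sub, sub_eq_zero]
    have h5 := congrArg (fun P => P.coeff (b / 2)) hzw
    simp only [hRc] at h5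
    have hb2 : b / 2 < p := by omega
    simp only [Z, hb2, if_true] at h5
    rw [Complex.ext_iff] at h5
    simp only at h5
    rcases Nat.mod_two_eq_zero_or_one b with h6 | h6
    · have e : 2 * (b / 2) = b := by omega
      rw [e] at h5
      exact h5.1
    · have e : 2 * (b / 2) + 1 = b := by omega
      rw [e] at h5
      exact h5.2
  rcases sq_eq_sq_iff_eq_or_eq_neg.1 hsq with h | h
  · left
    exact hcoord x y h
  · right
    apply hcoord
    rw [h]
    ext b
    rw [Polynomial.coeff_neg, hRc, hRc, Z_neg]

/-- sum of squares of the coordinates different from number `2` -/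
noncomputable def SS (n p : ℕ) (x : E n) : ℝ :=
  ∑ j ∈ (Finset.range (4 * p - 2)).erase 2, (aa n p j x) ^ 2

noncomputable def DD (n p : ℕ) (x : E n) : ℝ :=
  Real.sqrt (SS n p x + (aa n p 2 x) ^ 2) - aa n p 2 x

theorem continuous_DD (n p : ℕ) : Continuous (DD n p) := by
  have h2 := continuous_aa n p 2
  have h1 : Continuous (SS n p) := by
    unfold SS
    exact continuous_finsetSum _ (fun j _ => (continuous_aa n p j).pow 2)
  unfold DD
  exact ((h1.add (h2.pow 2)).sqrt).sub h2

theorem SS_nonneg (n p : ℕ) (x : E n) : 0 ≤ SS n p x :=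
  Finset.sum_nonneg (fun _ _ => sq_nonneg _)

theorem DD_pos {n p : ℕ} (hp : 2 ≤ p) (hn : n + 1 = 2 * p) {x : E n} (hx : ‖x‖ = 1) :
    0 < DD n p x := by
  have hSS : SS n p x ≠ 0 := by
    intro h0
    have h1 : ∀ j, j < 4 * p - 2 → j ≠ 2 → aa n p j x = 0 := by
      intro j hj hj2
      have := (Finset.sum_eq_zero_iff_of_nonneg (fun b _ => sq_nonneg _)).1 h0 j
        (Finset.mem_erase.2 ⟨hj2, Finset.mem_range.2 hj⟩)
      exact pow_eq_zero_iff (two_ne_zero) |>.1 this
    have hc0 : cc n p 0 x = 0 := by
      have := cc_of_aa (n := n) (p := p) (k := 0) (x := x) (y := x) (l := 0)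
        (by rw [h1 _ (by omega) (by omega)]; simp) (by rw [h1 _ (by omega) (by omega)]; simp)
      simpa using this
    have hz0 : Z n p 0 x = 0 := by
      unfold cc at hc0
      simpa using hc0
    have hc1 : cc n p 1 x = 0 := by
      unfold cc
      refine Finset.sum_eq_zero (fun a ha => ?_)
      have ha' := Finset.mem_range.1 ha
      rcases (by omega : a = 0 ∨ a = 1) with h | h
      · subst h; rw [hz0, zero_mul]
      · subst h; simp [hz0]
    have hall : ∀ k, cc n p k x = cc n p k 0 := by
      intro k
      have hz : cc n p k 0 = 0 := by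
        have := cc_smul n p k 0 x
        simpa using this
      rw [hz]
      by_cases hk0 : k = 1
      · rw [hk0]; exact hc1
      · by_cases hk : k < 2 * p - 1
        · have := cc_of_aa (n := n) (p := p) (k := k) (x := x) (y := x) (l := 0)
            (by rw [h1 _ (by omega) (by omega)]; simp) (by rw [h1 _ (by omega) (by omega)]; simp)
          simpa using this
        · exact cc_big (by omega) (by omega) x
    rcases eq_or_neg_of_cc hn hall with h | h
    · rw [h, norm_zero] at hx; norm_num at hx
    · rw [h, neg_zero, norm_zero] at hx; norm_num at hx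
  have hpos : 0 < SS n p x := lt_of_le_of_ne (SS_nonneg n p x) (Ne.symm hSS)
  unfold DD
  rw [sub_pos]
  calc aa n p 2 x ≤ |aa n p 2 x| := le_abs_self _
    _ = Real.sqrt ((aa n p 2 x) ^ 2) := (Real.sqrt_sq_eq_abs _).symm
    _ < Real.sqrt (SS n p x + (aa n p 2 x) ^ 2) := by
      apply Real.sqrt_lt_sqrt (sq_nonneg _)
      linarith

theorem stereo {n p m : ℕ} (hp : 2 ≤ p) (hn : n + 1 = 2 * p) (hm : 4 * p ≤ m + 3) :
    ProjEmbeds (n + 1) m Set.univ := by
  let idx : ℕ → ℕ := fun j => if j = 2 then 4 * p - 3 else j
  refine ⟨fun x => WithLp.toLp 2 (fun j : Fin m => aa n p (idx j) x / DD n p x), ?_,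
    fun _ _ => Set.mem_univ _, ?_⟩
  · refine (PiLp.continuous_toLp 2 _).comp_continuousOn ?_
    refine continuousOn_pi.2 (fun j => ?_)
    refine (continuous_aa n p _).continuousOn.div (continuous_DD n p).continuousOn ?_
    intro x hx
    exact (DD_pos hp hn (mem_sphere_zero_iff_norm.1 hx)).ne'
  · intro x hx y hy
    rw [mem_sphere_zero_iff_norm] at hx hy
    constructor
    · intro h
      have hDx := DD_pos hp hn hx
      have hDy := DD_pos hp hn hy
      set l : ℝ := DD n p x / DD n p y with hl
      have hlpos : 0 < l := div_pos hDx hDy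
      have hDxy : DD n p x = l * DD n p y := by rw [hl]; field_simp
      have hidx : ∀ j, j < m → aa n p (idx j) x = l * aa n p (idx j) y := by
        intro j hj
        have h3 := congrArg (fun v : EuclideanSpace ℝ (Fin m) => v ⟨j, hj⟩) h
        simp only at h3
        rw [hl]
        field_simp at h3 ⊢
        linarith
      have h2 : ∀ j, j < 4 * p - 2 → j ≠ 2 → aa n p j x = l * aa n p j y := by
        intro j hj hj2
        by_cases hj3 : j = 4 * p - 3
        · have := hidx 2 (by omega)
          simp only [idx, if_true] at this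
          rw [hj3]; exact this
        · have := hidx j (by omega)
          simpa only [idx, hj2, if_false] using this
      have hS : SS n p x = l ^ 2 * SS n p y := by
        unfold SS
        rw [Finset.mul_sum]
        refine Finset.sum_congr rfl (fun j hj => ?_)
        rw [Finset.mem_erase, Finset.mem_range] at hj
        rw [h2 j hj.2 hj.1]
        ring
      have key : ∀ z : E n, (DD n p z) * (DD n p z + 2 * aa n p 2 z) = SS n p z := by
        intro z
        have h4 : Real.sqrt (SS n p z + (aa n p 2 z) ^ 2) ^ 2 = SS n p z + (aa n p 2 z) ^ 2 :=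
          Real.sq_sqrt (add_nonneg (SS_nonneg n p z) (sq_nonneg _))
        unfold DD
        nlinarith
      have ha2 : aa n p 2 x = l * aa n p 2 y := by
        have hkx := key x
        have hky := key y
        rw [hS, ← hky, hDxy] at hkx
        have h5 : (l * DD n p y) * (2 * (aa n p 2 x - l * aa n p 2 y)) = 0 := by
          linear_combination hkx
        rcases mul_eq_zero.1 h5 with h6 | h6
        · exact absurd h6 (mul_pos hlpos hDy).ne'
        · linarith
      have hall : ∀ j, j < 4 * p - 2 → aa n p j x = l * aa n p j y := by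
        intro j hj
        by_cases hj2 : j = 2
        · rw [hj2]; exact ha2
        · exact h2 j hj hj2
      have hcc : ∀ k, cc n p k x = cc n p k (Real.sqrt l • y) := by
        intro k
        rw [cc_smul]
        have h7 : ((Real.sqrt l : ℝ) : ℂ) ^ 2 = (l : ℂ) := by
          rw [← Complex.ofReal_pow, Real.sq_sqrt hlpos.le]
        rw [h7]
        by_cases hk : k < 2 * p - 1
        · exact cc_of_aa (hall _ (by omega)) (hall _ (by omega))
        · rw [cc_big (by omega) (by omega) x, cc_big (by omega) (by omega) y, mul_zero]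
      have hsl : Real.sqrt l = 1 := by
        have h8 : ‖x‖ = ‖Real.sqrt l • y‖ := by
          rcases eq_or_neg_of_cc hn hcc with h | h
          · rw [← h]
          · rw [h, norm_neg]
        rw [norm_smul, hx, hy, mul_one, Real.norm_of_nonneg (Real.sqrt_nonneg _)] at h8
        exact h8.symm
      rw [hsl, one_smul] at hcc
      exact eq_or_neg_of_cc hn hcc
    · rintro (h | h)
      · rw [h]
      · have hneg : ∀ j, aa n p j x = aa n p j y := by
          intro j
          have h9 : ∀ k, cc n p k x = cc n p k y := by
            intro k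
            have := cc_smul n p k (-1) y
            rw [h]
            simpa using this
          unfold aa
          rw [h9]
        have hD : DD n p x = DD n p y := by
          unfold DD SS
          simp only [hneg]
        simp only [hneg, hD]

end H208.Knaster
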